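import Pool.Agent.Helper51.FS.Dim6

set_option autoImplicit false

namespace Pool.Agent.Helper51.FS

open MeasureTheory UnitAddTorus
open scoped ComplexConjugate ENNReal InnerProductSpace

noncomputable section

theorem st_DIM : ST_DIM := by
  classical
  intro d r E _ u R₀ γ _ hR₀ htp hfin hsp
  have hloc : ∀ η, ∀ H, ∃ c, Loc u (γ η) H c := by
    intro η H
    obtain ⟨c, hc⟩ := hfin H
    exact ⟨c, fun m e h1 h2 => hc η m e h1 h2⟩
  have hgen : ∀ q : Finset (Fin d → ℤ) × Finset ((Fin d → ℤ) × E), ∃ Rg : ℕ,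
      (∀ η, (MT (γ η) q.1 q.2).rank ≤ Rg) ∧ ∀ᵐ η ∂(haarT r), (MT (γ η) q.1 q.2).rank = Rg := by
    intro q
    exact generic_rank (fun η => MT (γ η) q.1 q.2) (fun i j => htp _ _)
  choose Rg _ hRg using hgen
  have hall : ∀ᵐ η ∂(haarT r), ∀ q : Finset (Fin d → ℤ) × Finset ((Fin d → ℤ) × E),
      (MT (γ η) q.1 q.2).rank = Rg q := ae_all_iff.mpr hRg
  -- a special generic phase
  have hex : ∃ η, (∀ q : Finset (Fin d → ℤ) × Finset ((Fin d → ℤ) × E),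
      (MT (γ η) q.1 q.2).rank = Rg q) ∧ ∃ (K : (Fin d → ℤ) × E → ℂ) (D : ℂ), D ≠ 0 ∧
      (∀ p, R₀ < |dotu u p.1| → K p = 0) ∧
      ∀ m₁ : Fin d → ℤ, ∑' p : (Fin d → ℤ) × E, γ η (m₁ - p.1) p.2 * K p
        = if m₁ = 0 then D else 0 := by
    by_contra hcon
    push Not at hcon
    apply hsp
    refine measure_mono_null ?_ (ae_iff.mp hall)
    rintro η ⟨K, D, hD, hK, hconv⟩ hη
    obtain ⟨m₁, hm₁⟩ := hcon η hη K D hD hK
    exact hm₁ (hconv m₁)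
  obtain ⟨η₀, hη₀, K, D, hD, hK, hconv⟩ := hex
  filter_upwards [hall] with η hη
  have hrk : ∀ H : ℝ, 1 ≤ H → ∃ c : ℕ, Loc u (γ η) (H + (R₀ + 1)) c ∧
      ∀ (t : ℝ) (l : ℕ), c ≤ l →
      (MT (γ η) (Kr u t 1 H (l + c)) (Cl E u (R₀ + 1) t l)).rank
        + (Kr u t (-1) 1 (l - c)).card
      ≤ (MT (γ η) (Kr u t (-1) H (l - c)) (Cl E u (R₀ + 1) t l)).rank
        + ((Kr u t (-1) H (l + c)).card - (Kr u t (-1) H (l - c)).card) := by
    intro H hH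
    obtain ⟨c, hc⟩ := hfin (H + (R₀ + 1))
    refine ⟨c, fun m e h1 h2 => hc η m e h1 h2, fun t l hcl => ?_⟩
    have h1 := rank_special u R₀ hR₀ (γ η₀) K D hD hK hconv t H l c hcl hH
      (fun m e h1 h2 => hc η₀ m e h1 h2)
    have e1 := hη (Kr u t 1 H (l + c), Cl E u (R₀ + 1) t l)
    have e2 := hη (Kr u t (-1) H (l - c), Cl E u (R₀ + 1) t l)
    have e3 := hη₀ (Kr u t 1 H (l + c), Cl E u (R₀ + 1) t l)
    have e4 := hη₀ (Kr u t (-1) H (l - c), Cl E u (R₀ + 1) t l)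
    simp only at e1 e2 e3 e4
    rw [e1, e2]
    rw [e3, e4] at h1
    exact h1
  obtain ⟨t, ht⟩ := exists_gap u R₀ (γ η) (hloc η) hrk
  obtain ⟨K', h1, h2, h3⟩ := extract u (R₀ + 1) (γ η) (hloc η) t ht
  exact ⟨t, K', h1, h2, h3⟩

end

end Pool.Agent.Helper51.FS
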