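import Mathlib

set_option autoImplicit false

namespace Pool.Agent.Helper51.FS

open scoped ComplexConjugate InnerProductSpace

noncomputable section

variable {H : Type} [NormedAddCommGroup H] [InnerProductSpace ℂ H]
variable {ι : Type} [Fintype ι]

/-- The linear combination map of a finite family. -/
def lc (δ : ι → H) : (ι → ℂ) →ₗ[ℂ] H where
  toFun c := ∑ i, c i • δ i
  map_add' a b := by simp [add_smul, Finset.sum_add_distrib]
  map_smul' a b := by simp [Finset.smul_sum, smul_smul]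

theorem lc_apply (δ : ι → H) (c : ι → ℂ) : lc δ c = ∑ i, c i • δ i := rfl

theorem lc_inner (δ : ι → H) (hδ : Orthonormal ℂ δ) (c : ι → ℂ) (i : ι) :
    inner ℂ (δ i) (lc δ c) = c i := by
  classical
  rw [lc_apply]
  exact hδ.inner_right_fintype c i

theorem lc_inj (δ : ι → H) (hδ : Orthonormal ℂ δ) : Function.Injective (lc δ) := by
  intro a b hab
  ext i
  rw [← lc_inner δ hδ a i, hab, lc_inner δ hδ b i]

theorem lc_norm (δ : ι → H) (hδ : Orthonormal ℂ δ) (c : ι → ℂ) :
    ‖lc δ c‖ ^ 2 = ∑ i, ‖c i‖ ^ 2 := by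
  have h1 : inner ℂ (lc δ c) (lc δ c) = ∑ i, conj (c i) * c i := by
    rw [lc_apply]
    exact hδ.inner_sum c c Finset.univ
  have h3 := inner_self_eq_norm_sq_to_K (𝕜 := ℂ) (lc δ c)
  rw [h1] at h3
  have h4 : ∀ i, conj (c i) * c i = ((‖c i‖ ^ 2 : ℝ) : ℂ) := by
    intro i
    rw [Complex.conj_mul']
    push_cast
    rfl
  simp only [h4] at h3
  have h5 : ((∑ i, ‖c i‖ ^ 2 : ℝ) : ℂ) = ((‖lc δ c‖ ^ 2 : ℝ) : ℂ) := by
    rw [Complex.ofReal_sum, h3, Complex.ofReal_pow]
    rfl
  exact (Complex.ofReal_injective h5).symm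

theorem norm_sq_of_mem (δ : ι → H) (hδ : Orthonormal ℂ δ) (w : H)
    (hw : w ∈ LinearMap.range (lc δ)) : ‖w‖ ^ 2 = ∑ i, ‖inner ℂ (δ i) w‖ ^ 2 := by
  obtain ⟨c, rfl⟩ := hw
  rw [lc_norm δ hδ]
  refine Finset.sum_congr rfl (fun i _ => ?_)
  rw [lc_inner δ hδ]

/-- The projection remainder. -/
theorem rem_sq {κ : Type} [Fintype κ] (w : κ → H) (hw : Orthonormal ℂ w) (x : H) :
    ‖x - lc w (fun j => inner ℂ (w j) x)‖ ^ 2 = ‖x‖ ^ 2 - ∑ j, ‖inner ℂ (w j) x‖ ^ 2 := by
  rw [@norm_sub_sq ℂ, lc_norm w hw]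
  have h1 : inner ℂ x (lc w (fun j => inner ℂ (w j) x)) = ((∑ j, ‖inner ℂ (w j) x‖ ^ 2 : ℝ) : ℂ) := by
    rw [lc_apply, inner_sum]
    push_cast
    refine Finset.sum_congr rfl (fun j _ => ?_)
    rw [inner_smul_right, ← inner_conj_symm x (w j), Complex.mul_conj']
  rw [h1]
  simp only [RCLike.re_to_complex, Complex.ofReal_re]
  ring

theorem span_lower (δ : ι → H) (hδ : Orthonormal ℂ δ) (V R : Submodule ℂ H)
    (hV : V ≤ LinearMap.range (lc δ)) (hVR : ∀ v ∈ V, ∀ r ∈ R, inner ℂ v r = 0) :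
    (Module.finrank ℂ V : ℝ) ≤ ∑ i, (Metric.infDist (δ i) (R : Set H)) ^ 2 := by
  have hfin : FiniteDimensional ℂ (LinearMap.range (lc δ)) := inferInstance
  have : FiniteDimensional ℂ V := Submodule.finiteDimensional_of_le hV
  set b := stdOrthonormalBasis ℂ V with hb
  set w : Fin (Module.finrank ℂ V) → H := fun j => (b j : H) with hw
  have hwo : Orthonormal ℂ w := by
    have := b.orthonormal
    exact this.comp_linearIsometry V.subtypeₗᵢ
  have h1 : ∀ j, (1 : ℝ) = ∑ i, ‖inner ℂ (δ i) (w j)‖ ^ 2 := by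
    intro j
    rw [← norm_sq_of_mem δ hδ (w j) (hV (b j).2), hwo.1 j]
    norm_num
  calc (Module.finrank ℂ V : ℝ) = ∑ j : Fin (Module.finrank ℂ V), (1 : ℝ) := by simp
    _ = ∑ j, ∑ i, ‖inner ℂ (δ i) (w j)‖ ^ 2 := Finset.sum_congr rfl (fun j _ => h1 j)
    _ = ∑ i, ∑ j, ‖inner ℂ (w j) (δ i)‖ ^ 2 := by
        rw [Finset.sum_comm]
        refine Finset.sum_congr rfl (fun i _ => Finset.sum_congr rfl (fun j _ => ?_))
        rw [← inner_conj_symm, RCLike.norm_conj]
    _ ≤ _ := by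
        refine Finset.sum_le_sum (fun i _ => ?_)
        set S := ∑ j, ‖inner ℂ (w j) (δ i)‖ ^ 2 with hS
        have hS0 : 0 ≤ S := Finset.sum_nonneg (fun j _ => by positivity)
        have h2 : Real.sqrt S ≤ Metric.infDist (δ i) (R : Set H) := by
          rw [Metric.le_infDist ⟨0, R.zero_mem⟩]
          intro r hr
          rw [dist_eq_norm]
          apply Real.sqrt_le_iff.mpr
          refine ⟨norm_nonneg _, ?_⟩
          have h3 := hwo.sum_inner_products_le (x := δ i - r) (s := Finset.univ)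
          refine le_trans (le_of_eq ?_) h3
          rw [hS]
          refine Finset.sum_congr rfl (fun j _ => ?_)
          rw [inner_sub_right, hVR (w j) (b j).2 r hr, sub_zero]
        calc S = Real.sqrt S ^ 2 := (Real.sq_sqrt hS0).symm
          _ ≤ _ := by
            have := Real.sqrt_nonneg S
            gcongr

theorem span_upper (δ : ι → H) (hδ : Orthonormal ℂ δ) (W R : Submodule ℂ H)
    (hW : W ≤ LinearMap.range (lc δ)) (hWR : W ≤ R) :
    ∑ i, (Metric.infDist (δ i) (R : Set H)) ^ 2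
      ≤ (Fintype.card ι : ℝ) - (Module.finrank ℂ W : ℝ) := by
  have hfin : FiniteDimensional ℂ (LinearMap.range (lc δ)) := inferInstance
  have : FiniteDimensional ℂ W := Submodule.finiteDimensional_of_le hW
  set b := stdOrthonormalBasis ℂ W with hb
  set w : Fin (Module.finrank ℂ W) → H := fun j => (b j : H) with hw
  have hwo : Orthonormal ℂ w := by
    have := b.orthonormal
    exact this.comp_linearIsometry W.subtypeₗᵢ
  have h1 : ∀ j, (1 : ℝ) = ∑ i, ‖inner ℂ (δ i) (w j)‖ ^ 2 := by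
    intro j
    rw [← norm_sq_of_mem δ hδ (w j) (hW (b j).2), hwo.1 j]
    norm_num
  have h2 : ∀ i, (Metric.infDist (δ i) (R : Set H)) ^ 2 ≤ 1 - ∑ j, ‖inner ℂ (w j) (δ i)‖ ^ 2 := by
    intro i
    have h3 := rem_sq w hwo (δ i)
    rw [hδ.1 i] at h3
    have h4 : lc w (fun j => inner ℂ (w j) (δ i)) ∈ R := by
      rw [lc_apply]
      exact Submodule.sum_mem _ (fun j _ => R.smul_mem _ (hWR (b j).2))
    have h5 : Metric.infDist (δ i) (R : Set H) ≤ ‖δ i - lc w (fun j => inner ℂ (w j) (δ i))‖ := by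
      rw [← dist_eq_norm]
      exact Metric.infDist_le_dist_of_mem h4
    calc (Metric.infDist (δ i) (R : Set H)) ^ 2
        ≤ ‖δ i - lc w (fun j => inner ℂ (w j) (δ i))‖ ^ 2 := by
          have := Metric.infDist_nonneg (x := δ i) (s := (R : Set H))
          gcongr
      _ = _ := by rw [h3]; norm_num
  calc ∑ i, (Metric.infDist (δ i) (R : Set H)) ^ 2
      ≤ ∑ i, (1 - ∑ j, ‖inner ℂ (w j) (δ i)‖ ^ 2) := Finset.sum_le_sum (fun i _ => h2 i)
    _ = (Fintype.card ι : ℝ) - ∑ j, ∑ i, ‖inner ℂ (δ i) (w j)‖ ^ 2 := by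
        rw [Finset.sum_sub_distrib]
        congr 1
        · simp
        · rw [Finset.sum_comm]
          refine Finset.sum_congr rfl (fun i _ => Finset.sum_congr rfl (fun j _ => ?_))
          rw [← inner_conj_symm, RCLike.norm_conj]
    _ = _ := by
        congr 1
        rw [← Finset.sum_congr rfl (fun j _ => h1 j)]
        simp

/-- Lower bound of the trace: `R` is a subspace orthogonal to all solutions of `P c = 0`. -/
theorem tri_lower {κ : Type} [Fintype κ] (δ : ι → H) (hδ : Orthonormal ℂ δ) (R : Submodule ℂ H)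
    (P : Matrix κ ι ℂ)
    (hP : ∀ c : ι → ℂ, P.mulVec c = 0 → ∀ r ∈ R, inner ℂ (lc δ c) r = 0) :
    (Fintype.card ι : ℝ) - (P.rank : ℝ) ≤ ∑ i, (Metric.infDist (δ i) (R : Set H)) ^ 2 := by
  set V : Submodule ℂ H := (LinearMap.ker P.mulVecLin).map (lc δ) with hV
  have h1 := span_lower δ hδ V R (by
    rw [hV]; exact LinearMap.map_le_range) (by
    rintro v ⟨c, hc, rfl⟩ r hr
    exact hP c (by simpa using hc) r hr)
  have h2 : Module.finrank ℂ V = Module.finrank ℂ (LinearMap.ker P.mulVecLin) :=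
    (Submodule.equivMapOfInjective (lc δ) (lc_inj δ hδ) _).finrank_eq.symm
  have h3 := LinearMap.finrank_range_add_finrank_ker P.mulVecLin
  have h4 : Module.finrank ℂ (LinearMap.range P.mulVecLin) = P.rank := rfl
  rw [h4, Module.finrank_fintype_fun_eq_card] at h3
  have h5 : (P.rank : ℝ) + (Module.finrank ℂ V : ℝ) = (Fintype.card ι : ℝ) := by
    rw [h2]; exact_mod_cast h3
  linarith

/-- Upper bound of the trace. -/
theorem tri_upper {κ : Type} [Fintype κ] (δ : ι → H) (hδ : Orthonormal ℂ δ) (R : Submodule ℂ H)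
    (P : Matrix κ ι ℂ) (hP : ∀ k, lc δ (P k) ∈ R) :
    ∑ i, (Metric.infDist (δ i) (R : Set H)) ^ 2 ≤ (Fintype.card ι : ℝ) - (P.rank : ℝ) := by
  classical
  set W : Submodule ℂ H := (Submodule.span ℂ (Set.range P.row)).map (lc δ) with hW
  have h1 := span_upper δ hδ W R (by
    rw [hW]; exact LinearMap.map_le_range) (by
    rw [hW, Submodule.map_span_le]
    rintro _ ⟨k, rfl⟩
    exact hP k)
  have h2 : Module.finrank ℂ W = P.rank := by
    rw [Matrix.rank_eq_finrank_span_row]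
    exact (Submodule.equivMapOfInjective (lc δ) (lc_inj δ hδ) _).finrank_eq.symm
  rw [h2] at h1
  exact h1

end

end Pool.Agent.Helper51.FS
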