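import Pool.Agent.Helper51.FS.Stmts
import Pool.Agent.Helper51.FS.TRI

set_option autoImplicit false

namespace Pool.Agent.Helper51.FS

open MeasureTheory
open scoped ComplexConjugate ENNReal InnerProductSpace ComplexOrder

set_option linter.unusedSectionVars false

noncomputable section

variable {d : ℕ} {E : Type} [Fintype E]

theorem dotu_add {d : ℕ} (u : Fin d → ℝ) (m n : Fin d → ℤ) :
    dotu u (m + n) = dotu u m + dotu u n := by
  simp [dotu, add_mul, Finset.sum_add_distrib]

theorem dotu_sub {d : ℕ} (u : Fin d → ℝ) (m n : Fin d → ℤ) :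
    dotu u (m - n) = dotu u m - dotu u n := by
  simp [dotu, sub_mul, Finset.sum_sub_distrib]

theorem dotu_zero {d : ℕ} (u : Fin d → ℝ) : dotu u 0 = 0 := by simp [dotu]

/-- The box of side `2 l + 1`. -/
def Bx (d l : ℕ) : Finset (Fin d → ℤ) := Fintype.piFinset fun _ => Finset.Icc (-(l : ℤ)) l

theorem mem_Bx {l : ℕ} {m : Fin d → ℤ} : m ∈ Bx d l ↔ ∀ i, |m i| ≤ (l : ℤ) := by
  simp [Bx, Fintype.mem_piFinset, abs_le]

theorem card_Bx (l : ℕ) : (Bx d l).card = (2 * l + 1) ^ d := by
  rw [Bx, Fintype.card_piFinset]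
  simp only [Int.card_Icc, Finset.prod_const, Finset.card_univ, Fintype.card_fin]
  congr 1
  omega

theorem Bx_mono {a b : ℕ} (h : a ≤ b) : Bx d a ⊆ Bx d b := by
  intro m hm
  rw [mem_Bx] at hm ⊢
  intro i
  exact (hm i).trans (by exact_mod_cast h)

/-- Local finiteness with the constant `c` at height `H`. -/
def Loc (u : Fin d → ℝ) (g : (Fin d → ℤ) → E → ℂ) (H : ℝ) (c : ℕ) : Prop :=
  ∀ m e, |dotu u m| ≤ H → g m e ≠ 0 → ∀ i, |m i| ≤ (c : ℤ)

open Classical in
/-- The row at `m₁`, cut to the strip at `t`. -/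
def rowf (u : Fin d → ℝ) (R : ℝ) (g : (Fin d → ℤ) → E → ℂ) (t : ℝ) (m₁ : Fin d → ℤ) :
    (Fin d → ℤ) × E → ℂ :=
  fun p => if |dotu u p.1 + t| ≤ R then conj (g (m₁ - p.1) p.2) else 0

open Classical in
/-- The row at `m₁` as a square summable family. -/
def rowv (u : Fin d → ℝ) (R : ℝ) (g : (Fin d → ℤ) → E → ℂ) (t : ℝ) (m₁ : Fin d → ℤ) :
    ell2 ((Fin d → ℤ) × E) :=
  if h : Memℓp (rowf u R g t m₁) 2 then ⟨rowf u R g t m₁, h⟩ else 0

theorem rowf_fin (u : Fin d → ℝ) (R : ℝ) (g : (Fin d → ℤ) → E → ℂ)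
    (hloc : ∀ H, ∃ c, Loc u g H c) (t : ℝ) (m₁ : Fin d → ℤ) :
    (Function.support (rowf u R g t m₁)).Finite := by
  obtain ⟨c, hc⟩ := hloc (|dotu u m₁ + t| + R)
  refine Set.Finite.subset
    (s := (((Bx d c).image (fun m => m₁ - m)) ×ˢ (Finset.univ : Finset E) :
      Finset ((Fin d → ℤ) × E))) (Finset.finite_toSet _) ?_
  intro p hp
  rw [Function.mem_support] at hp
  unfold rowf at hp
  split_ifs at hp with h
  · have h1 : g (m₁ - p.1) p.2 ≠ 0 := fun h0 => hp (by rw [h0, map_zero])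
    have h2 := hc (m₁ - p.1) p.2 (by
      rw [dotu_sub]
      calc |dotu u m₁ - dotu u p.1| = |(dotu u m₁ + t) - (dotu u p.1 + t)| := by ring_nf
        _ ≤ |dotu u m₁ + t| + |dotu u p.1 + t| := abs_sub _ _
        _ ≤ _ := by linarith) h1
    simp only [Finset.coe_product, Finset.coe_image, Set.mem_prod, Set.mem_image,
      Finset.mem_coe, Finset.mem_univ, and_true]
    exact ⟨m₁ - p.1, mem_Bx.mpr h2, by abel⟩
  · exact absurd rfl hp

theorem rowv_apply (u : Fin d → ℝ) (R : ℝ) (g : (Fin d → ℤ) → E → ℂ)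
    (hloc : ∀ H, ∃ c, Loc u g H c) (t : ℝ) (m₁ : Fin d → ℤ) (p : (Fin d → ℤ) × E) :
    rowv u R g t m₁ p = rowf u R g t m₁ p := by
  have h : Memℓp (rowf u R g t m₁) 2 :=
    (memℓp_zero (rowf_fin u R g hloc t m₁)).of_exponent_ge (zero_le)
  unfold rowv
  rw [dif_pos h]

/-- The basis vectors. -/
def bv (p : (Fin d → ℤ) × E) : ell2 ((Fin d → ℤ) × E) := by
  classical exact lp.single 2 p (1 : ℂ)

theorem bv_inner (p : (Fin d → ℤ) × E) (x : ell2 ((Fin d → ℤ) × E)) :
    inner ℂ (bv p) x = x p := by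
  classical
  unfold bv
  rw [lp.inner_single_left]
  simp

theorem bv_apply_self (p : (Fin d → ℤ) × E) : bv p p = 1 := by
  classical
  unfold bv
  rw [lp.single_apply_self]

theorem bv_apply_ne {p q : (Fin d → ℤ) × E} (h : q ≠ p) : bv p q = 0 := by
  classical
  unfold bv
  rw [lp.single_apply_ne _ _ _ h]

theorem bv_orth (C : Finset ((Fin d → ℤ) × E)) :
    Orthonormal ℂ (fun p : C => bv (p : (Fin d → ℤ) × E)) := by
  classical
  rw [orthonormal_iff_ite]
  intro p q
  rw [bv_inner]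
  split_ifs with h
  · rw [h, bv_apply_self]
  · exact bv_apply_ne (fun h' => h (Subtype.ext h'))

open Classical in
theorem lc_bv_apply (C : Finset ((Fin d → ℤ) × E)) (a : C → ℂ) (p : (Fin d → ℤ) × E) :
    lc (fun p : C => bv (p : (Fin d → ℤ) × E)) a p = if h : p ∈ C then a ⟨p, h⟩ else 0 := by
  classical
  split_ifs with h
  · have := lc_inner (fun p : C => bv (p : (Fin d → ℤ) × E)) (bv_orth C) a ⟨p, h⟩
    rw [bv_inner] at this
    exact this
  · rw [← bv_inner, lc_apply, inner_sum]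
    refine Finset.sum_eq_zero (fun q _ => ?_)
    rw [inner_smul_right, bv_inner, bv_apply_ne, mul_zero]
    rintro rfl
    exact h q.2

/-- The matrix with rows `K` and columns `C`. -/
def MT (g : (Fin d → ℤ) → E → ℂ) (K : Finset (Fin d → ℤ)) (C : Finset ((Fin d → ℤ) × E)) :
    Matrix K C ℂ := fun m₁ p => g ((m₁ : Fin d → ℤ) - (p : (Fin d → ℤ) × E).1) (p : (Fin d → ℤ) × E).2

/-- Span of the rows with index in `I`. -/
def RS (u : Fin d → ℝ) (R : ℝ) (g : (Fin d → ℤ) → E → ℂ) (t : ℝ) (I : Set (Fin d → ℤ)) :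
    Submodule ℂ (ell2 ((Fin d → ℤ) × E)) := Submodule.span ℂ ((rowv u R g t) '' I)

open Classical in
/-- The columns of the strip in the box. -/
def Cl (E : Type) [Fintype E] (u : Fin d → ℝ) (R : ℝ) (t : ℝ) (l : ℕ) :
    Finset ((Fin d → ℤ) × E) :=
  ((Bx d l).filter (fun m => |dotu u m + t| ≤ R)) ×ˢ (Finset.univ : Finset E)

theorem mem_Cl {u : Fin d → ℝ} {R t : ℝ} {l : ℕ} {p : (Fin d → ℤ) × E} :
    p ∈ Cl E u R t l ↔ p.1 ∈ Bx d l ∧ |dotu u p.1 + t| ≤ R := by
  simp [Cl]

open Classical in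
/-- Row indices with height in `(a, H]`. -/
def Kr (u : Fin d → ℝ) (t : ℝ) (a H : ℝ) (l : ℕ) : Finset (Fin d → ℤ) :=
  (Bx d l).filter (fun m => a < |dotu u m + t| ∧ |dotu u m + t| ≤ H)

theorem mem_Kr {u : Fin d → ℝ} {t a H : ℝ} {l : ℕ} {m : Fin d → ℤ} :
    m ∈ Kr u t a H l ↔ m ∈ Bx d l ∧ a < |dotu u m + t| ∧ |dotu u m + t| ≤ H := by
  simp [Kr]

/-- Row index set with height in `(a, H]`. -/
def Ir (u : Fin d → ℝ) (t : ℝ) (a H : ℝ) : Set (Fin d → ℤ) :=
  {m | a < |dotu u m + t| ∧ |dotu u m + t| ≤ H}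

theorem lower_ineq (u : Fin d → ℝ) (R : ℝ) (g : (Fin d → ℤ) → E → ℂ)
    (hloc : ∀ H, ∃ c, Loc u g H c) (t a H : ℝ) (l c : ℕ) (hc : Loc u g (H + R) c) :
    ((Cl E u R t l).card : ℝ) - ((MT g (Kr u t a H (l + c)) (Cl E u R t l)).rank : ℝ)
      ≤ ∑ p ∈ Cl E u R t l, (Metric.infDist (bv p) (RS u R g t (Ir u t a H) :
        Set (ell2 ((Fin d → ℤ) × E)))) ^ 2 := by
  classical
  have h := tri_lower (fun p : Cl E u R t l => bv (p : (Fin d → ℤ) × E)) (bv_orth _)
    (RS u R g t (Ir u t a H)) (MT g (Kr u t a H (l + c)) (Cl E u R t l)) (by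
      intro b hb r hr
      have hspan : ∀ r ∈ RS u R g t (Ir u t a H),
          inner ℂ (lc (fun p : Cl E u R t l => bv (p : (Fin d → ℤ) × E)) b) r = 0 := by
        intro r hr
        unfold RS at hr
        refine Submodule.span_induction (p := fun r _ =>
          inner ℂ (lc (fun p : Cl E u R t l => bv (p : (Fin d → ℤ) × E)) b) r = 0)
          ?_ ?_ ?_ ?_ hr
        · rintro _ ⟨m₁, hm₁, rfl⟩
          rw [lc_apply, sum_inner]
          have h1 : ∀ p : Cl E u R t l, inner ℂ (b p • bv (p : (Fin d → ℤ) × E))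
              (rowv u R g t m₁) = conj (g (m₁ - (p : (Fin d → ℤ) × E).1)
                (p : (Fin d → ℤ) × E).2 * b p) := by
            intro p
            rw [inner_smul_left, bv_inner, rowv_apply u R g hloc, rowf,
              if_pos (mem_Cl.mp p.2).2, map_mul]
            ring
          rw [Finset.sum_congr rfl (fun p _ => h1 p), ← map_sum]
          by_cases hmem : m₁ ∈ Bx d (l + c)
          · have h2 : m₁ ∈ Kr u t a H (l + c) := mem_Kr.mpr ⟨hmem, hm₁⟩
            have h3 := congrFun hb ⟨m₁, h2⟩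
            simp only [Matrix.mulVec, dotProduct, MT, Pi.zero_apply] at h3
            rw [h3, map_zero]
          · rw [Finset.sum_eq_zero, map_zero]
            intro p _
            have hp := mem_Cl.mp p.2
            have h4 : g (m₁ - (p : (Fin d → ℤ) × E).1) (p : (Fin d → ℤ) × E).2 = 0 := by
              by_contra hne
              apply hmem
              rw [mem_Bx]
              intro i
              have h5 := hc _ _ (by
                rw [dotu_sub]
                calc |dotu u m₁ - dotu u (p : (Fin d → ℤ) × E).1|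
                    = |(dotu u m₁ + t) - (dotu u (p : (Fin d → ℤ) × E).1 + t)| := by ring_nf
                  _ ≤ |dotu u m₁ + t| + |dotu u (p : (Fin d → ℤ) × E).1 + t| := abs_sub _ _
                  _ ≤ _ := add_le_add hm₁.2 hp.2) hne i
              have h6 := (mem_Bx.mp hp.1) i
              simp only [Pi.sub_apply] at h5
              calc |m₁ i| = |(m₁ i - (p : (Fin d → ℤ) × E).1 i) + (p : (Fin d → ℤ) × E).1 i| := by
                    ring_nf
                _ ≤ |m₁ i - (p : (Fin d → ℤ) × E).1 i| + |(p : (Fin d → ℤ) × E).1 i| :=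
                    abs_add_le _ _
                _ ≤ c + l := add_le_add h5 h6
                _ = ((l + c : ℕ) : ℤ) := by push_cast; ring
            rw [h4, zero_mul]
        · exact inner_zero_right _
        · intro x y _ _ hx hy
          rw [inner_add_right, hx, hy, add_zero]
        · intro k x _ hx
          rw [inner_smul_right, hx, mul_zero]
      exact hspan r hr)
  rw [Fintype.card_coe] at h
  refine h.trans (le_of_eq ?_)
  exact Finset.sum_coe_sort (Cl E u R t l) (fun p => (Metric.infDist (bv p)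
    (RS u R g t (Ir u t a H) : Set (ell2 ((Fin d → ℤ) × E)))) ^ 2)

theorem upper_ineq (u : Fin d → ℝ) (R : ℝ) (g : (Fin d → ℤ) → E → ℂ)
    (hloc : ∀ H, ∃ c, Loc u g H c) (t a H : ℝ) (l c : ℕ) (hcl : c ≤ l)
    (hc : Loc u g (H + R) c) :
    ∑ p ∈ Cl E u R t l, (Metric.infDist (bv p) (RS u R g t (Ir u t a H) :
        Set (ell2 ((Fin d → ℤ) × E)))) ^ 2
      ≤ ((Cl E u R t l).card : ℝ) - ((MT g (Kr u t a H (l - c)) (Cl E u R t l)).rank : ℝ) := by
  classical
  set P := MT g (Kr u t a H (l - c)) (Cl E u R t l) with hP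
  have hrank : (P.map (starRingEnd ℂ)).rank = P.rank := by
    have h1 : P.map (starRingEnd ℂ) = (P.conjTranspose).transpose := by
      ext i j
      simp [Matrix.conjTranspose_apply, Matrix.transpose_apply]
    rw [h1, Matrix.rank_transpose, Matrix.rank_conjTranspose]
  have h := tri_upper (fun p : Cl E u R t l => bv (p : (Fin d → ℤ) × E)) (bv_orth _)
    (RS u R g t (Ir u t a H)) (P.map (starRingEnd ℂ)) (by
      intro k
      have hk := mem_Kr.mp k.2
      have h2 : lc (fun p : Cl E u R t l => bv (p : (Fin d → ℤ) × E))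
          ((P.map (starRingEnd ℂ)) k) = rowv u R g t (k : Fin d → ℤ) := by
        ext p
        rw [lc_bv_apply, rowv_apply u R g hloc, rowf]
        by_cases h3 : p ∈ Cl E u R t l
        · rw [dif_pos h3, if_pos (mem_Cl.mp h3).2]
          rfl
        rw [dif_neg h3]
        by_cases h4 : |dotu u p.1 + t| ≤ R
        · rw [if_pos h4]
          symm
          by_contra hne
          apply h3
          rw [mem_Cl]
          refine ⟨?_, h4⟩
          rw [mem_Bx]
          intro i
          have hg : g ((k : Fin d → ℤ) - p.1) p.2 ≠ 0 := fun h0 => hne (by rw [h0, map_zero])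
          have h5 := hc _ _ (by
            rw [dotu_sub]
            calc |dotu u (k : Fin d → ℤ) - dotu u p.1|
                = |(dotu u (k : Fin d → ℤ) + t) - (dotu u p.1 + t)| := by ring_nf
              _ ≤ |dotu u (k : Fin d → ℤ) + t| + |dotu u p.1 + t| := abs_sub _ _
              _ ≤ _ := add_le_add hk.2.2 h4) hg i
          have h6 := (mem_Bx.mp hk.1) i
          simp only [Pi.sub_apply] at h5
          calc |p.1 i| = |(k : Fin d → ℤ) i - ((k : Fin d → ℤ) i - p.1 i)| := by ring_nf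
            _ ≤ |(k : Fin d → ℤ) i| + |(k : Fin d → ℤ) i - p.1 i| := abs_sub _ _
            _ ≤ ((l - c : ℕ) : ℤ) + c := add_le_add h6 h5
            _ = (l : ℤ) := by push_cast [Nat.cast_sub hcl]; ring
        · rw [if_neg h4]
      rw [h2]
      exact Submodule.subset_span ⟨_, hk.2, rfl⟩)
  rw [hrank, Fintype.card_coe] at h
  refine le_trans (le_of_eq ?_) h
  exact (Finset.sum_coe_sort (Cl E u R t l) (fun p => (Metric.infDist (bv p)
    (RS u R g t (Ir u t a H) : Set (ell2 ((Fin d → ℤ) × E)))) ^ 2)).symm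

end

end Pool.Agent.Helper51.FS
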