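import Pool.Agent.Helper51.FS.Dim1

set_option autoImplicit false

namespace Pool.Agent.Helper51.FS

open MeasureTheory
open scoped ComplexConjugate ENNReal InnerProductSpace

set_option linter.unusedSectionVars false

noncomputable section

variable {d : ℕ} {E : Type} [Fintype E]

/-- Span of rows in the coordinate space. -/
def rsp (g : (Fin d → ℤ) → E → ℂ) (K : Finset (Fin d → ℤ)) (C : Finset ((Fin d → ℤ) × E)) :
    Submodule ℂ (C → ℂ) :=
  Submodule.span ℂ ((fun m₁ : Fin d → ℤ => fun p : C =>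
    g (m₁ - (p : (Fin d → ℤ) × E).1) (p : (Fin d → ℤ) × E).2) '' (K : Set (Fin d → ℤ)))

theorem rank_rsp (g : (Fin d → ℤ) → E → ℂ) (K : Finset (Fin d → ℤ))
    (C : Finset ((Fin d → ℤ) × E)) : (MT g K C).rank = Module.finrank ℂ (rsp g K C) := by
  rw [Matrix.rank_eq_finrank_span_row]
  have h1 : Set.range (MT g K C).row = (fun m₁ : Fin d → ℤ => fun p : C =>
      g (m₁ - (p : (Fin d → ℤ) × E).1) (p : (Fin d → ℤ) × E).2) '' (K : Set (Fin d → ℤ)) := by
    ext x
    constructor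
    · rintro ⟨k, rfl⟩
      exact ⟨k, k.2, rfl⟩
    · rintro ⟨k, hk, rfl⟩
      exact ⟨⟨k, hk⟩, rfl⟩
  rw [h1]
  rfl

open Classical in
theorem rank_add_rows (g : (Fin d → ℤ) → E → ℂ) (K₁ K₂ : Finset (Fin d → ℤ))
    (C : Finset ((Fin d → ℤ) × E)) :
    (MT g K₂ C).rank ≤ (MT g K₁ C).rank + (K₂ \ K₁).card := by
  rw [rank_rsp, rank_rsp]
  have h1 : rsp g K₂ C ≤ rsp g K₁ C ⊔ rsp g (K₂ \ K₁) C := by
    unfold rsp
    rw [← Submodule.span_union, ← Set.image_union]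
    apply Submodule.span_mono
    apply Set.image_mono
    intro x hx
    by_cases hx1 : x ∈ K₁
    · exact Or.inl hx1
    · exact Or.inr (by simp only [Finset.coe_sdiff, Set.mem_sdiff]; exact ⟨hx, hx1⟩)
  have h2 : Module.finrank ℂ (rsp g (K₂ \ K₁) C) ≤ (K₂ \ K₁).card := by
    unfold rsp
    rw [← Finset.coe_image]
    exact (finrank_span_finset_le_card _).trans Finset.card_image_le
  calc Module.finrank ℂ (rsp g K₂ C) ≤ Module.finrank ℂ (rsp g K₁ C ⊔ rsp g (K₂ \ K₁) C :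
        Submodule ℂ (C → ℂ)) := Submodule.finrank_mono h1
    _ ≤ Module.finrank ℂ (rsp g K₁ C) + Module.finrank ℂ (rsp g (K₂ \ K₁) C) :=
        Submodule.finrank_add_le_finrank_add_finrank _ _
    _ ≤ _ := by omega

/-- Dual vectors increase the rank. -/
theorem rank_dual (g : (Fin d → ℤ) → E → ℂ) (K₁ K₂ M₀ : Finset (Fin d → ℤ))
    (C : Finset ((Fin d → ℤ) × E)) (h1 : K₁ ⊆ K₂) (h2 : M₀ ⊆ K₂)
    (k : (Fin d → ℤ) → C → ℂ) (D : ℂ) (hD : D ≠ 0)
    (hk : ∀ m₁ ∈ K₂, ∀ m₀ ∈ M₀, ∑ p : C, g (m₁ - (p : (Fin d → ℤ) × E).1)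
      (p : (Fin d → ℤ) × E).2 * k m₀ p = if m₁ = m₀ then D else 0)
    (hdis : Disjoint K₁ M₀) :
    (MT g K₁ C).rank + M₀.card ≤ (MT g K₂ C).rank := by
  classical
  rw [rank_rsp, rank_rsp]
  set row : (Fin d → ℤ) → C → ℂ := fun m₁ p =>
    g (m₁ - (p : (Fin d → ℤ) × E).1) (p : (Fin d → ℤ) × E).2 with hrow
  set Q : Matrix M₀ C ℂ := fun m₀ p => k m₀ p with hQ
  set π : (C → ℂ) →ₗ[ℂ] (M₀ → ℂ) := Q.mulVecLin with hπ
  have hπrow : ∀ m₁ ∈ K₂, ∀ m₀ : M₀, π (row m₁) m₀ = if m₁ = m₀ then D else 0 := by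
    intro m₁ hm₁ m₀
    rw [← hk m₁ hm₁ m₀ m₀.2]
    simp only [hπ, hQ]
    exact Finset.sum_congr rfl (fun p _ => mul_comm _ _)
  set V₂ := rsp g K₂ C with hV₂
  set V₁ := rsp g K₁ C with hV₁
  have hle : V₁ ≤ V₂ := by
    rw [hV₁, hV₂]
    unfold rsp
    exact Submodule.span_mono (Set.image_mono (by exact_mod_cast h1))
  set ρ := π.domRestrict V₂ with hρ
  have hrange : LinearMap.range ρ = ⊤ := by
    rw [eq_top_iff]
    intro x _
    have hx : x = ∑ m₀ : M₀, x m₀ • (Pi.single m₀ (1 : ℂ) : M₀ → ℂ) := by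
      ext j
      simp [Finset.sum_apply, Pi.single_apply]
    rw [hx]
    refine Submodule.sum_mem _ (fun m₀ _ => Submodule.smul_mem _ _ ?_)
    have hmem : row (m₀ : Fin d → ℤ) ∈ V₂ := Submodule.subset_span ⟨_, h2 m₀.2, rfl⟩
    refine ⟨D⁻¹ • ⟨row (m₀ : Fin d → ℤ), hmem⟩, ?_⟩
    rw [map_smul]
    ext j
    have h3 := hπrow m₀ (h2 m₀.2) j
    simp only [hρ, LinearMap.domRestrict_apply, Pi.smul_apply, smul_eq_mul]
    rw [h3, Pi.single_apply]
    by_cases hj : j = m₀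
    · rw [if_pos (by rw [hj]), if_pos hj]
      field_simp
    · rw [if_neg (fun h => hj (Subtype.ext h.symm)), if_neg hj, mul_zero]
  have hker : V₁.comap V₂.subtype ≤ LinearMap.ker ρ := by
    intro x hx
    rw [LinearMap.mem_ker]
    have hx' : (x : C → ℂ) ∈ V₁ := hx
    have h4 : V₁ ≤ LinearMap.ker π := by
      rw [hV₁]
      unfold rsp
      rw [Submodule.span_le]
      rintro _ ⟨m₁, hm₁, rfl⟩
      rw [SetLike.mem_coe, LinearMap.mem_ker]
      ext m₀
      have := hπrow m₁ (h1 hm₁) m₀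
      rw [if_neg] at this
      · exact this
      · rintro rfl
        exact (Finset.disjoint_left.mp hdis) hm₁ m₀.2
    exact h4 hx'
  have hfr := LinearMap.finrank_range_add_finrank_ker ρ
  rw [hrange, finrank_top, Module.finrank_fintype_fun_eq_card, Fintype.card_coe] at hfr
  have h5 : Module.finrank ℂ V₁ ≤ Module.finrank ℂ (LinearMap.ker ρ) := by
    rw [← (Submodule.comapSubtypeEquivOfLe hle).finrank_eq]
    exact Submodule.finrank_mono hker
  omega

/-- The rank inequality at a special static phase. -/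
theorem rank_special (u : Fin d → ℝ) (R₀ : ℝ) (hR₀ : 0 ≤ R₀) (g : (Fin d → ℤ) → E → ℂ)
    (K : (Fin d → ℤ) × E → ℂ) (D : ℂ) (hD : D ≠ 0)
    (hK : ∀ p, R₀ < |dotu u p.1| → K p = 0)
    (hconv : ∀ m₁ : Fin d → ℤ, ∑' p : (Fin d → ℤ) × E, g (m₁ - p.1) p.2 * K p
        = if m₁ = 0 then D else 0)
    (t H : ℝ) (l c : ℕ) (hcl : c ≤ l) (hH : 1 ≤ H) (hc : Loc u g (H + (R₀ + 1)) c) :
    (MT g (Kr u t 1 H (l + c)) (Cl E u (R₀ + 1) t l)).rank + (Kr u t (-1) 1 (l - c)).card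
      ≤ (MT g (Kr u t (-1) H (l - c)) (Cl E u (R₀ + 1) t l)).rank
        + ((Kr u t (-1) H (l + c)).card - (Kr u t (-1) H (l - c)).card) := by
  classical
  set C := Cl E u (R₀ + 1) t l with hC
  have e1 := rank_add_rows g (Kr u t 1 H (l - c)) (Kr u t 1 H (l + c)) C
  have hneg : ∀ x : ℝ, (-1 : ℝ) < |x| := fun x => lt_of_lt_of_le (by norm_num) (abs_nonneg x)
  have e2 : (Kr u t 1 H (l + c) \ Kr u t 1 H (l - c)).card
      ≤ (Kr u t (-1) H (l + c)).card - (Kr u t (-1) H (l - c)).card := by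
    have hsub : Kr u t (-1) H (l - c) ⊆ Kr u t (-1) H (l + c) := by
      intro m hm
      rw [mem_Kr] at hm ⊢
      exact ⟨Bx_mono (by omega) hm.1, hm.2⟩
    rw [← Finset.card_sdiff_of_subset hsub]
    apply Finset.card_le_card
    intro m hm
    rw [Finset.mem_sdiff, mem_Kr, mem_Kr] at hm ⊢
    exact ⟨⟨hm.1.1, hneg _, hm.1.2.2⟩, fun h => hm.2 ⟨h.1, hm.1.2⟩⟩
  have e3 := rank_dual g (Kr u t 1 H (l - c)) (Kr u t (-1) H (l - c)) (Kr u t (-1) 1 (l - c)) C
    (by
      intro m hm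
      rw [mem_Kr] at hm ⊢
      exact ⟨hm.1, hneg _, hm.2.2⟩)
    (by
      intro m hm
      rw [mem_Kr] at hm ⊢
      exact ⟨hm.1, hneg _, hm.2.2.trans hH⟩)
    (fun m₀ p => K ((p : (Fin d → ℤ) × E).1 - m₀, (p : (Fin d → ℤ) × E).2)) D hD
    (by
      intro m₁ hm₁ m₀ hm₀
      rw [mem_Kr] at hm₁ hm₀
      have h1 := hconv (m₁ - m₀)
      set e : (Fin d → ℤ) × E ≃ (Fin d → ℤ) × E := (Equiv.subRight m₀).prodCongr (Equiv.refl E)
        with he
      rw [← e.tsum_eq] at h1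
      have h2 : ∀ p : (Fin d → ℤ) × E, g (m₁ - m₀ - (e p).1) (e p).2 * K (e p)
          = g (m₁ - p.1) p.2 * K (p.1 - m₀, p.2) := by
        intro p
        simp only [he, Equiv.prodCongr_apply, Prod.map, Equiv.subRight_apply, Equiv.refl_apply]
        congr 2
        abel
      simp only [h2] at h1
      have h3 : (m₁ - m₀ = 0) = (m₁ = m₀) := by rw [sub_eq_zero]
      simp only [h3] at h1
      rw [← h1]
      rw [tsum_eq_sum (s := C)]
      · exact Finset.sum_coe_sort C (fun p => g (m₁ - p.1) p.2 * K (p.1 - m₀, p.2))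
      · intro p hp
        by_contra hne
        have hg : g (m₁ - p.1) p.2 ≠ 0 := left_ne_zero_of_mul hne
        have hKp : K (p.1 - m₀, p.2) ≠ 0 := right_ne_zero_of_mul hne
        have h4 : |dotu u p.1 - dotu u m₀| ≤ R₀ := by
          by_contra hcon
          apply hKp
          apply hK
          rw [dotu_sub]
          exact not_le.mp hcon
        have h5 : |dotu u p.1 + t| ≤ R₀ + 1 := by
          calc |dotu u p.1 + t| = |(dotu u p.1 - dotu u m₀) + (dotu u m₀ + t)| := by ring_nf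
            _ ≤ |dotu u p.1 - dotu u m₀| + |dotu u m₀ + t| := abs_add_le _ _
            _ ≤ _ := add_le_add h4 hm₀.2.2
        apply hp
        rw [hC, mem_Cl]
        refine ⟨?_, h5⟩
        rw [mem_Bx]
        intro i
        have h6 := hc _ _ (by
          rw [dotu_sub]
          calc |dotu u m₁ - dotu u p.1| = |(dotu u m₁ + t) - (dotu u p.1 + t)| := by ring_nf
            _ ≤ |dotu u m₁ + t| + |dotu u p.1 + t| := abs_sub _ _
            _ ≤ _ := add_le_add hm₁.2.2 h5) hg i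
        have h7 := (mem_Bx.mp hm₁.1) i
        simp only [Pi.sub_apply] at h6
        calc |p.1 i| = |m₁ i - (m₁ i - p.1 i)| := by ring_nf
          _ ≤ |m₁ i| + |m₁ i - p.1 i| := abs_sub _ _
          _ ≤ ((l - c : ℕ) : ℤ) + c := add_le_add h7 h6
          _ = (l : ℤ) := by push_cast [Nat.cast_sub hcl]; ring)
    (by
      rw [Finset.disjoint_left]
      intro m hm hm'
      rw [mem_Kr] at hm hm'
      linarith [hm.2.1, hm'.2.2])
  omega

end

end Pool.Agent.Helper51.FS
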