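import Pool.Agent.Helper51.FS.Dim2

set_option autoImplicit false

namespace Pool.Agent.Helper51.FS

open MeasureTheory
open scoped ComplexConjugate ENNReal InnerProductSpace

set_option linter.unusedSectionVars false

noncomputable section

variable {d : ℕ} {E : Type} [Fintype E]

theorem sh_memlp (m : Fin d → ℤ) (x : ell2 ((Fin d → ℤ) × E)) :
    Memℓp (fun p : (Fin d → ℤ) × E => x (p.1 + m, p.2)) 2 := by
  have h := lp.memℓp x
  rw [memℓp_gen_iff (by norm_num)] at h ⊢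
  set e : (Fin d → ℤ) × E ≃ (Fin d → ℤ) × E := (Equiv.addRight m).prodCongr (Equiv.refl E)
  exact (e.summable_iff).mpr h

/-- Shift by `m`. -/
def shE (m : Fin d → ℤ) : ell2 ((Fin d → ℤ) × E) →ₗᵢ[ℂ] ell2 ((Fin d → ℤ) × E) where
  toFun x := ⟨fun p => x (p.1 + m, p.2), sh_memlp m x⟩
  map_add' x y := by
    ext p
    simp only [lp.coeFn_add, Pi.add_apply]
  map_smul' a x := by
    ext p
    simp only [lp.coeFn_smul, Pi.smul_apply, RingHom.id_apply]
  norm_map' x := by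
    have h1 := lp.norm_rpow_eq_tsum (p := 2) (by norm_num)
      (⟨fun p => x (p.1 + m, p.2), sh_memlp m x⟩ : ell2 ((Fin d → ℤ) × E))
    have h2 := lp.norm_rpow_eq_tsum (p := 2) (by norm_num) x
    set e : (Fin d → ℤ) × E ≃ (Fin d → ℤ) × E := (Equiv.addRight m).prodCongr (Equiv.refl E)
      with he
    have h3 : (∑' p : (Fin d → ℤ) × E, ‖x p‖ ^ (2 : ℝ≥0∞).toReal)
        = ∑' p : (Fin d → ℤ) × E, ‖x (p.1 + m, p.2)‖ ^ (2 : ℝ≥0∞).toReal := by
      rw [← e.tsum_eq]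
      rfl
    have h4 : ‖(⟨fun p => x (p.1 + m, p.2), sh_memlp m x⟩ : ell2 ((Fin d → ℤ) × E))‖
        ^ (2 : ℝ≥0∞).toReal = ‖x‖ ^ (2 : ℝ≥0∞).toReal := by
      rw [h1, h2, h3]
    simp only [ENNReal.toReal_ofNat, Real.rpow_ofNat] at h4
    exact (sq_eq_sq₀ (norm_nonneg _) (norm_nonneg _)).mp h4

theorem shE_apply (m : Fin d → ℤ) (x : ell2 ((Fin d → ℤ) × E)) (p : (Fin d → ℤ) × E) :
    shE m x p = x (p.1 + m, p.2) := rfl

theorem shE_bv (m : Fin d → ℤ) (p : (Fin d → ℤ) × E) :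
    shE m (bv p) = bv (p.1 - m, p.2) := by
  ext q
  rw [shE_apply]
  by_cases h : (q.1 + m, q.2) = p
  · rw [h, bv_apply_self]
    have : q = (p.1 - m, p.2) := by rw [← h]; simp
    rw [this, bv_apply_self]
  · rw [bv_apply_ne h, bv_apply_ne]
    intro h'
    apply h
    rw [h']
    simp

theorem shE_row (u : Fin d → ℝ) (R : ℝ) (g : (Fin d → ℤ) → E → ℂ)
    (hloc : ∀ H, ∃ c, Loc u g H c) (t : ℝ) (m m₁ : Fin d → ℤ) :
    shE m (rowv u R g t m₁) = rowv u R g (t + dotu u m) (m₁ - m) := by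
  ext q
  rw [shE_apply, rowv_apply u R g hloc, rowv_apply u R g hloc]
  unfold rowf
  simp only [dotu_add]
  have h1 : dotu u q.1 + dotu u m + t = dotu u q.1 + (t + dotu u m) := by ring
  have h2 : m₁ - (q.1 + m) = m₁ - m - q.1 := by abel
  rw [h1, h2]

theorem shE_RS (u : Fin d → ℝ) (R : ℝ) (g : (Fin d → ℤ) → E → ℂ)
    (hloc : ∀ H, ∃ c, Loc u g H c) (t a H : ℝ) (m : Fin d → ℤ) :
    (shE m) '' (RS u R g t (Ir u t a H) : Set (ell2 ((Fin d → ℤ) × E)))
      = (RS u R g (t + dotu u m) (Ir u (t + dotu u m) a H) : Set (ell2 ((Fin d → ℤ) × E))) := by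
  have h1 : (RS u R g t (Ir u t a H)).map (shE m).toLinearMap
      = RS u R g (t + dotu u m) (Ir u (t + dotu u m) a H) := by
    unfold RS
    rw [Submodule.map_span]
    congr 1
    ext x
    constructor
    · rintro ⟨_, ⟨m₁, hm₁, rfl⟩, rfl⟩
      refine ⟨m₁ - m, ?_, ?_⟩
      · unfold Ir at hm₁ ⊢
        simp only [Set.mem_ofPred_eq, dotu_sub] at hm₁ ⊢
        have : dotu u m₁ - dotu u m + (t + dotu u m) = dotu u m₁ + t := by ring
        rw [this]
        exact hm₁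
      · exact (shE_row u R g hloc t m m₁).symm
    · rintro ⟨m₁, hm₁, rfl⟩
      refine ⟨_, ⟨m₁ + m, ?_, rfl⟩, ?_⟩
      · unfold Ir at hm₁ ⊢
        simp only [Set.mem_ofPred_eq, dotu_add] at hm₁ ⊢
        have : dotu u m₁ + dotu u m + t = dotu u m₁ + (t + dotu u m) := by ring
        rw [this]
        exact hm₁
      · have := shE_row u R g hloc t m (m₁ + m)
        rw [add_sub_cancel_right] at this
        exact this
  rw [← h1]
  rfl

/-- Distances are invariant under simultaneous translation. -/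
theorem infDist_shift (u : Fin d → ℝ) (R : ℝ) (g : (Fin d → ℤ) → E → ℂ)
    (hloc : ∀ H, ∃ c, Loc u g H c) (t a H : ℝ) (m : Fin d → ℤ) (e : E) :
    Metric.infDist (bv (m, e)) (RS u R g t (Ir u t a H) : Set (ell2 ((Fin d → ℤ) × E)))
      = Metric.infDist (bv ((0 : Fin d → ℤ), e)) (RS u R g (t + dotu u m)
        (Ir u (t + dotu u m) a H) : Set (ell2 ((Fin d → ℤ) × E))) := by
  rw [← shE_RS u R g hloc t a H m]
  have h1 : bv ((0 : Fin d → ℤ), e) = shE m (bv (m, e)) := by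
    rw [shE_bv]; simp
  rw [h1, Metric.infDist_image (shE m).isometry]

/-- Squared distance function at height `(a, H]`. -/
def vd (u : Fin d → ℝ) (R : ℝ) (g : (Fin d → ℤ) → E → ℂ) (a H t : ℝ) : ℝ :=
  ∑ e : E, (Metric.infDist (bv ((0 : Fin d → ℤ), e)) (RS u R g t (Ir u t a H) :
    Set (ell2 ((Fin d → ℤ) × E)))) ^ 2

theorem sum_Cl (u : Fin d → ℝ) (R : ℝ) (g : (Fin d → ℤ) → E → ℂ)
    (hloc : ∀ H, ∃ c, Loc u g H c) (t a H : ℝ) (l : ℕ) :
    ∑ p ∈ Cl E u R t l, (Metric.infDist (bv p) (RS u R g t (Ir u t a H) :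
        Set (ell2 ((Fin d → ℤ) × E)))) ^ 2
      = ∑ m ∈ Bx d l, (Set.Icc (-R) R).indicator (vd u R g a H) (t + dotu u m) := by
  classical
  unfold Cl
  rw [Finset.sum_product, Finset.sum_filter]
  refine Finset.sum_congr rfl (fun m _ => ?_)
  by_cases h : |dotu u m + t| ≤ R
  · rw [if_pos h, Set.indicator_of_mem (by rw [Set.mem_Icc, ← abs_le, add_comm]; exact h)]
    unfold vd
    refine Finset.sum_congr rfl (fun e _ => ?_)
    rw [infDist_shift u R g hloc]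
  · rw [if_neg h, Set.indicator_of_notMem (by rw [Set.mem_Icc, ← abs_le, add_comm]; exact h)]

/-- The pointwise inequality before integration. -/
theorem pt_ineq (u : Fin d → ℝ) (R₀ : ℝ) (g : (Fin d → ℤ) → E → ℂ)
    (hloc : ∀ H, ∃ c, Loc u g H c) (t H : ℝ) (l c : ℕ) (hcl : c ≤ l)
    (hc : Loc u g (H + (R₀ + 1)) c)
    (hrk : (MT g (Kr u t 1 H (l + c)) (Cl E u (R₀ + 1) t l)).rank + (Kr u t (-1) 1 (l - c)).card
      ≤ (MT g (Kr u t (-1) H (l - c)) (Cl E u (R₀ + 1) t l)).rank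
        + ((Kr u t (-1) H (l + c)).card - (Kr u t (-1) H (l - c)).card)) :
    ((Kr u t (-1) 1 (l - c)).card : ℝ) - (((Kr u t (-1) H (l + c)).card : ℝ)
        - ((Kr u t (-1) H (l - c)).card : ℝ))
      ≤ ∑ m ∈ Bx d l, (Set.Icc (-(R₀ + 1)) (R₀ + 1)).indicator
          (fun s => vd u (R₀ + 1) g 1 H s - vd u (R₀ + 1) g (-1) H s) (t + dotu u m) := by
  have h1 := lower_ineq u (R₀ + 1) g hloc t 1 H l c hc
  have h2 := upper_ineq u (R₀ + 1) g hloc t (-1) H l c hcl hc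
  rw [sum_Cl u (R₀ + 1) g hloc] at h1 h2
  have h3 : (Kr u t (-1) H (l - c)).card ≤ (Kr u t (-1) H (l + c)).card := by
    apply Finset.card_le_card
    intro m hm
    rw [mem_Kr] at hm ⊢
    exact ⟨Bx_mono (by omega) hm.1, hm.2⟩
  have h4 : (((MT g (Kr u t 1 H (l + c)) (Cl E u (R₀ + 1) t l)).rank
      + (Kr u t (-1) 1 (l - c)).card : ℕ) : ℝ)
      ≤ (((MT g (Kr u t (-1) H (l - c)) (Cl E u (R₀ + 1) t l)).rank
        + ((Kr u t (-1) H (l + c)).card - (Kr u t (-1) H (l - c)).card) : ℕ) : ℝ) := by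
    exact_mod_cast hrk
  push_cast [Nat.cast_sub h3] at h4
  have h5 : ∑ m ∈ Bx d l, (Set.Icc (-(R₀ + 1)) (R₀ + 1)).indicator
          (fun s => vd u (R₀ + 1) g 1 H s - vd u (R₀ + 1) g (-1) H s) (t + dotu u m)
      = ∑ m ∈ Bx d l, (Set.Icc (-(R₀ + 1)) (R₀ + 1)).indicator
          (vd u (R₀ + 1) g 1 H) (t + dotu u m)
        - ∑ m ∈ Bx d l, (Set.Icc (-(R₀ + 1)) (R₀ + 1)).indicator
          (vd u (R₀ + 1) g (-1) H) (t + dotu u m) := by
    rw [← Finset.sum_sub_distrib]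
    refine Finset.sum_congr rfl (fun m _ => ?_)
    by_cases hm : t + dotu u m ∈ Set.Icc (-(R₀ + 1)) (R₀ + 1)
    · simp only [Set.indicator_of_mem hm]
    · simp only [Set.indicator_of_notMem hm, sub_zero]
  rw [h5]
  linarith

end

end Pool.Agent.Helper51.FS
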