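import Pool.Agent.Helper51.FS.Dim3

set_option autoImplicit false

namespace Pool.Agent.Helper51.FS

open MeasureTheory
open scoped ComplexConjugate ENNReal InnerProductSpace

set_option linter.unusedSectionVars false

noncomputable section

variable {d : ℕ} {E : Type} [Fintype E]

theorem rowf_meas (u : Fin d → ℝ) (R : ℝ) (g : (Fin d → ℤ) → E → ℂ) (m₁ : Fin d → ℤ)
    (p : (Fin d → ℤ) × E) : Measurable (fun t : ℝ => rowf u R g t m₁ p) := by
  unfold rowf
  apply Measurable.ite _ measurable_const measurable_const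
  have h1 : Measurable (fun t : ℝ => |dotu u p.1 + t|) := by fun_prop
  exact measurableSet_le h1 measurable_const

/-- The row as a finite sum which is measurable in `t`. -/
theorem row_sum (u : Fin d → ℝ) (R : ℝ) (g : (Fin d → ℤ) → E → ℂ)
    (hloc : ∀ H, ∃ c, Loc u g H c) (m₁ : Fin d → ℤ) (T : ℝ) :
    ∃ F : Finset ((Fin d → ℤ) × E), ∀ t : ℝ, |t| ≤ T →
      rowv u R g t m₁ = ∑ p ∈ F, rowf u R g t m₁ p • bv p := by
  classical
  obtain ⟨c, hc⟩ := hloc (|dotu u m₁| + (R + T))
  refine ⟨((Bx d c).image (fun m => m₁ - m)) ×ˢ (Finset.univ : Finset E), fun t ht => ?_⟩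
  ext q
  rw [rowv_apply u R g hloc]
  have h1 : (∑ p ∈ ((Bx d c).image (fun m => m₁ - m)) ×ˢ (Finset.univ : Finset E),
      rowf u R g t m₁ p • bv p : ell2 ((Fin d → ℤ) × E)) q
      = ∑ p ∈ ((Bx d c).image (fun m => m₁ - m)) ×ˢ (Finset.univ : Finset E),
        rowf u R g t m₁ p * bv p q := by
    rw [lp.coeFn_sum, Finset.sum_apply]
    rfl
  rw [h1]
  by_cases hq : q ∈ ((Bx d c).image (fun m => m₁ - m)) ×ˢ (Finset.univ : Finset E)
  · rw [Finset.sum_eq_single q]
    · rw [bv_apply_self, mul_one]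
    · intro p _ hp
      rw [bv_apply_ne (fun h => hp h.symm), mul_zero]
    · intro h; exact absurd hq h
  · rw [Finset.sum_eq_zero]
    · unfold rowf
      split_ifs with h2
      · by_contra hne
        apply hq
        have h3 : g (m₁ - q.1) q.2 ≠ 0 := fun h0 => hne (by rw [h0, map_zero])
        have h4 := hc (m₁ - q.1) q.2 (by
          rw [dotu_sub]
          have h5 : |dotu u q.1| ≤ R + T := by
            calc |dotu u q.1| = |(dotu u q.1 + t) - t| := by ring_nf
              _ ≤ |dotu u q.1 + t| + |t| := abs_sub _ _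
              _ ≤ _ := add_le_add h2 ht
          calc |dotu u m₁ - dotu u q.1| ≤ |dotu u m₁| + |dotu u q.1| := abs_sub _ _
            _ ≤ _ := by linarith) h3
        simp only [Finset.mem_product, Finset.mem_image, Finset.mem_univ, and_true]
        exact ⟨m₁ - q.1, mem_Bx.mpr h4, by abel⟩
      · rfl
    · intro p hp
      rw [bv_apply_ne (fun h => hq (by rw [h]; exact hp)), mul_zero]

open Classical in
/-- Countable family of combinations of rows. -/
def yL (u : Fin d → ℝ) (R : ℝ) (g : (Fin d → ℤ) → E → ℂ) (a H t : ℝ)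
    (L : List ((Fin d → ℤ) × ℕ)) : ell2 ((Fin d → ℤ) × E) :=
  (L.map (fun q => TopologicalSpace.denseSeq ℂ q.2 •
    (if q.1 ∈ Ir u t a H then rowv u R g t q.1 else 0))).sum

theorem yL_mem (u : Fin d → ℝ) (R : ℝ) (g : (Fin d → ℤ) → E → ℂ) (a H t : ℝ)
    (L : List ((Fin d → ℤ) × ℕ)) : yL u R g a H t L ∈ RS u R g t (Ir u t a H) := by
  classical
  induction L with
  | nil => simp [yL]
  | cons q L ih =>
    have : yL u R g a H t (q :: L) = TopologicalSpace.denseSeq ℂ q.2 •
      (if q.1 ∈ Ir u t a H then rowv u R g t q.1 else 0) + yL u R g a H t L := by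
      simp [yL]
    rw [this]
    refine Submodule.add_mem _ (Submodule.smul_mem _ _ ?_) ih
    split_ifs with h
    · exact Submodule.subset_span ⟨_, h, rfl⟩
    · exact Submodule.zero_mem _

theorem yL_dense (u : Fin d → ℝ) (R : ℝ) (g : (Fin d → ℤ) → E → ℂ) (a H t : ℝ)
    (y : ell2 ((Fin d → ℤ) × E)) (hy : y ∈ RS u R g t (Ir u t a H)) :
    ∀ ε : ℝ, 0 < ε → ∃ L, ‖y - yL u R g a H t L‖ < ε := by
  classical
  unfold RS at hy
  refine Submodule.closure_induction (p := fun y _ => ∀ ε : ℝ, 0 < ε →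
    ∃ L, ‖y - yL u R g a H t L‖ < ε) ?_ ?_ ?_ hy
  · intro ε hε
    exact ⟨[], by simpa [yL] using hε⟩
  · intro x z _ _ hx hz ε hε
    obtain ⟨L1, h1⟩ := hx (ε / 2) (by positivity)
    obtain ⟨L2, h2⟩ := hz (ε / 2) (by positivity)
    refine ⟨L1 ++ L2, ?_⟩
    have h3 : yL u R g a H t (L1 ++ L2) = yL u R g a H t L1 + yL u R g a H t L2 := by
      simp [yL]
    rw [h3]
    calc ‖x + z - (yL u R g a H t L1 + yL u R g a H t L2)‖
        = ‖(x - yL u R g a H t L1) + (z - yL u R g a H t L2)‖ := by congr 1; abel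
      _ ≤ _ := norm_add_le _ _
      _ < ε := by linarith
  · rintro b _ ⟨m₁, hm₁, rfl⟩ ε hε
    have hpos : 0 < ε / (‖rowv u R g t m₁‖ + 1) := by positivity
    obtain ⟨k, hk⟩ := (TopologicalSpace.denseRange_denseSeq ℂ).exists_dist_lt b hpos
    refine ⟨[(m₁, k)], ?_⟩
    have h3 : yL u R g a H t [(m₁, k)] = TopologicalSpace.denseSeq ℂ k • rowv u R g t m₁ := by
      simp [yL, hm₁]
    rw [h3, ← sub_smul, norm_smul, ← dist_eq_norm]
    calc dist b (TopologicalSpace.denseSeq ℂ k) * ‖rowv u R g t m₁‖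
        ≤ ε / (‖rowv u R g t m₁‖ + 1) * ‖rowv u R g t m₁‖ := by gcongr
      _ < ε / (‖rowv u R g t m₁‖ + 1) * (‖rowv u R g t m₁‖ + 1) := by
          gcongr
          linarith
      _ = ε := by field_simp

theorem infDist_iInf (u : Fin d → ℝ) (R : ℝ) (g : (Fin d → ℤ) → E → ℂ) (a H t : ℝ)
    (x : ell2 ((Fin d → ℤ) × E)) :
    Metric.infDist x (RS u R g t (Ir u t a H) : Set (ell2 ((Fin d → ℤ) × E)))
      = ⨅ L, ‖x - yL u R g a H t L‖ := by
  have hbdd : BddBelow (Set.range fun L => ‖x - yL u R g a H t L‖) :=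
    ⟨0, by rintro _ ⟨L, rfl⟩; exact norm_nonneg _⟩
  apply le_antisymm
  · apply le_ciInf
    intro L
    rw [← dist_eq_norm]
    exact Metric.infDist_le_dist_of_mem (yL_mem u R g a H t L)
  · rw [Metric.le_infDist ⟨0, Submodule.zero_mem _⟩]
    intro y hy
    apply le_of_forall_pos_le_add
    intro ε hε
    obtain ⟨L, hL⟩ := yL_dense u R g a H t y hy ε hε
    calc (⨅ L, ‖x - yL u R g a H t L‖) ≤ ‖x - yL u R g a H t L‖ := ciInf_le hbdd L
      _ = ‖(x - y) + (y - yL u R g a H t L)‖ := by congr 1; abel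
      _ ≤ ‖x - y‖ + ‖y - yL u R g a H t L‖ := norm_add_le _ _
      _ ≤ dist x y + ε := by rw [dist_eq_norm]; linarith

/-- Measurability of the distance on bounded intervals. -/
theorem infDist_meas (u : Fin d → ℝ) (R : ℝ) (g : (Fin d → ℤ) → E → ℂ)
    (hloc : ∀ H, ∃ c, Loc u g H c) (a H T : ℝ) (x : ell2 ((Fin d → ℤ) × E)) :
    Measurable ((Set.Icc (-T) T).indicator (fun t : ℝ =>
      Metric.infDist x (RS u R g t (Ir u t a H) : Set (ell2 ((Fin d → ℤ) × E))))) := by
  classical
  choose F hF using fun m₁ => row_sum u R g hloc m₁ T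
  set z : ℝ → List ((Fin d → ℤ) × ℕ) → ell2 ((Fin d → ℤ) × E) := fun t L =>
    (L.map (fun q => TopologicalSpace.denseSeq ℂ q.2 •
      (if q.1 ∈ Ir u t a H then ∑ p ∈ F q.1, rowf u R g t q.1 p • bv p else 0))).sum with hz
  have hzm : ∀ L, StronglyMeasurable (fun t => z t L) := by
    intro L
    induction L with
    | nil => simpa [hz] using stronglyMeasurable_const
    | cons q L ih =>
      have h1 : (fun t => z t (q :: L)) = fun t => TopologicalSpace.denseSeq ℂ q.2 •
        (if q.1 ∈ Ir u t a H then ∑ p ∈ F q.1, rowf u R g t q.1 p • bv p else 0) + z t L := by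
        ext t
        simp [hz]
      rw [h1]
      refine StronglyMeasurable.add (StronglyMeasurable.fun_const_smul ?_ _) ih
      have h2 : MeasurableSet {t : ℝ | q.1 ∈ Ir u t a H} := by
        have h3 : Measurable (fun t : ℝ => |dotu u q.1 + t|) := by fun_prop
        exact (measurableSet_lt measurable_const h3).inter (measurableSet_le h3 measurable_const)
      refine StronglyMeasurable.ite h2 ?_ stronglyMeasurable_const
      refine Finset.stronglyMeasurable_fun_sum _ (fun p _ => ?_)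
      exact (rowf_meas u R g q.1 p).stronglyMeasurable.smul_const _
  have hmeas : Measurable (fun t => ⨅ L, ‖x - z t L‖) := by
    apply Measurable.iInf
    intro L
    exact ((stronglyMeasurable_const.sub (hzm L)).norm).measurable
  have heq : (Set.Icc (-T) T).indicator (fun t : ℝ =>
      Metric.infDist x (RS u R g t (Ir u t a H) : Set (ell2 ((Fin d → ℤ) × E))))
      = (Set.Icc (-T) T).indicator (fun t => ⨅ L, ‖x - z t L‖) := by
    apply Set.indicator_congr
    intro t ht
    change Metric.infDist x (RS u R g t (Ir u t a H) : Set (ell2 ((Fin d → ℤ) × E)))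
      = ⨅ L, ‖x - z t L‖
    rw [infDist_iInf]
    congr 1
    ext L
    congr 2
    unfold yL
    simp only [hz]
    congr 1
    refine List.map_congr_left (fun q _ => ?_)
    rw [hF q.1 t (abs_le.mpr ht)]
  rw [heq]
  exact hmeas.indicator measurableSet_Icc

end

end Pool.Agent.Helper51.FS
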