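import Pool.Agent.Helper51.FS.Dim4

set_option autoImplicit false

namespace Pool.Agent.Helper51.FS

open MeasureTheory
open scoped ComplexConjugate ENNReal InnerProductSpace

set_option linter.unusedSectionVars false

noncomputable section

variable {d : ℕ} {E : Type} [Fintype E]

/-- Squared distance to the rows with height larger than `a`. -/
def vinf (u : Fin d → ℝ) (R : ℝ) (g : (Fin d → ℤ) → E → ℂ) (a t : ℝ) : ℝ :=
  ∑ e : E, (Metric.infDist (bv ((0 : Fin d → ℤ), e)) (RS u R g t {m | a < |dotu u m + t|} :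
    Set (ell2 ((Fin d → ℤ) × E)))) ^ 2

theorem infDist_le_one (p : (Fin d → ℤ) × E) (S : Submodule ℂ (ell2 ((Fin d → ℤ) × E))) :
    Metric.infDist (bv p) (S : Set (ell2 ((Fin d → ℤ) × E))) ≤ 1 := by
  classical
  have h1 := Metric.infDist_le_dist_of_mem (x := bv p) (S.zero_mem :
    (0 : ell2 ((Fin d → ℤ) × E)) ∈ (S : Set (ell2 ((Fin d → ℤ) × E))))
  rw [dist_zero_right] at h1
  have h2 : ‖bv p‖ = 1 := (bv_orth ({p} : Finset ((Fin d → ℤ) × E))).1 ⟨p, by simp⟩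
  rwa [h2] at h1

theorem vd_nonneg (u : Fin d → ℝ) (R : ℝ) (g : (Fin d → ℤ) → E → ℂ) (a H t : ℝ) :
    0 ≤ vd u R g a H t := Finset.sum_nonneg (fun _ _ => by positivity)

theorem vd_le (u : Fin d → ℝ) (R : ℝ) (g : (Fin d → ℤ) → E → ℂ) (a H t : ℝ) :
    vd u R g a H t ≤ Fintype.card E := by
  unfold vd
  calc _ ≤ ∑ e : E, (1 : ℝ) := by
        refine Finset.sum_le_sum (fun e _ => ?_)
        have h1 := infDist_le_one ((0 : Fin d → ℤ), e) (RS u R g t (Ir u t a H))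
        have h2 := Metric.infDist_nonneg (x := bv ((0 : Fin d → ℤ), e))
          (s := (RS u R g t (Ir u t a H) : Set (ell2 ((Fin d → ℤ) × E))))
        nlinarith
    _ = _ := by simp

theorem vd_meas (u : Fin d → ℝ) (R : ℝ) (g : (Fin d → ℤ) → E → ℂ)
    (hloc : ∀ H, ∃ c, Loc u g H c) (a H : ℝ) :
    Measurable ((Set.Icc (-R) R).indicator (vd u R g a H)) := by
  classical
  have h1 : (Set.Icc (-R) R).indicator (vd u R g a H) = fun t => ∑ e : E,
      ((Set.Icc (-R) R).indicator (fun t : ℝ => Metric.infDist (bv ((0 : Fin d → ℤ), e))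
        (RS u R g t (Ir u t a H) : Set (ell2 ((Fin d → ℤ) × E)))) t) ^ 2 := by
    ext t
    by_cases ht : t ∈ Set.Icc (-R) R
    · simp only [Set.indicator_of_mem ht]
      rfl
    · simp only [Set.indicator_of_notMem ht]
      simp
  rw [h1]
  exact Finset.measurable_fun_sum _ (fun e _ => (infDist_meas u R g hloc a H R _).pow_const 2)

/-- The difference function, cut to the interval. -/
def Fd (u : Fin d → ℝ) (R : ℝ) (g : (Fin d → ℤ) → E → ℂ) (H : ℝ) : ℝ → ℝ :=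
  (Set.Icc (-R) R).indicator (fun s => vd u R g 1 H s - vd u R g (-1) H s)

theorem Fd_meas (u : Fin d → ℝ) (R : ℝ) (g : (Fin d → ℤ) → E → ℂ)
    (hloc : ∀ H, ∃ c, Loc u g H c) (H : ℝ) : Measurable (Fd u R g H) := by
  have h1 : Fd u R g H = fun s => (Set.Icc (-R) R).indicator (vd u R g 1 H) s
      - (Set.Icc (-R) R).indicator (vd u R g (-1) H) s := by
    ext s
    unfold Fd
    by_cases hs : s ∈ Set.Icc (-R) R
    · simp only [Set.indicator_of_mem hs]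
    · simp only [Set.indicator_of_notMem hs, sub_zero]
  rw [h1]
  exact (vd_meas u R g hloc 1 H).sub (vd_meas u R g hloc (-1) H)

theorem Fd_bound (u : Fin d → ℝ) (R : ℝ) (g : (Fin d → ℤ) → E → ℂ) (H s : ℝ) :
    ‖Fd u R g H s‖ ≤ (Set.Icc (-R) R).indicator (fun _ => (Fintype.card E : ℝ)) s := by
  unfold Fd
  by_cases hs : s ∈ Set.Icc (-R) R
  · simp only [Set.indicator_of_mem hs]
    rw [Real.norm_eq_abs, abs_le]
    have h1 := vd_nonneg u R g 1 H s
    have h2 := vd_nonneg u R g (-1) H s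
    have h3 := vd_le u R g 1 H s
    have h4 := vd_le u R g (-1) H s
    constructor <;> linarith
  · simp only [Set.indicator_of_notMem hs]
    simp

theorem ind_int (R c : ℝ) : Integrable ((Set.Icc (-R) R).indicator (fun _ : ℝ => c)) volume := by
  rw [integrable_indicator_iff measurableSet_Icc]
  exact integrableOn_const (by simp)

theorem Fd_int (u : Fin d → ℝ) (R : ℝ) (g : (Fin d → ℤ) → E → ℂ)
    (hloc : ∀ H, ∃ c, Loc u g H c) (H : ℝ) : Integrable (Fd u R g H) volume :=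
  (ind_int R _).mono' (Fd_meas u R g hloc H).aestronglyMeasurable
    (Filter.Eventually.of_forall (fun s => Fd_bound u R g H s))

theorem card_Kr_eq (u : Fin d → ℝ) (t H : ℝ) (l : ℕ) :
    ((Kr u t (-1) H l).card : ℝ)
      = ∑ m ∈ Bx d l, (Set.Icc (-H) H).indicator (fun _ => (1 : ℝ)) (t + dotu u m) := by
  classical
  unfold Kr
  rw [Finset.card_filter]
  push_cast
  refine Finset.sum_congr rfl (fun m _ => ?_)
  have hneg : (-1 : ℝ) < |dotu u m + t| := lt_of_lt_of_le (by norm_num) (abs_nonneg _)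
  by_cases h : |dotu u m + t| ≤ H
  · rw [if_pos ⟨hneg, h⟩, Set.indicator_of_mem (by rw [Set.mem_Icc, ← abs_le, add_comm]; exact h)]
  · rw [if_neg (fun h' => h h'.2),
      Set.indicator_of_notMem (by rw [Set.mem_Icc, ← abs_le, add_comm]; exact h)]

theorem int_shift (f : ℝ → ℝ) (B : Finset (Fin d → ℤ)) (u : Fin d → ℝ)
    (hf : Integrable f volume) :
    Integrable (fun t => ∑ m ∈ B, f (t + dotu u m)) volume ∧
      ∫ t, ∑ m ∈ B, f (t + dotu u m) = (B.card : ℝ) * ∫ t, f t := by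
  constructor
  · exact integrable_finsetSum _ (fun m _ => hf.comp_add_right _)
  · rw [integral_finsetSum _ (fun m _ => hf.comp_add_right _)]
    simp only [integral_add_right_eq_self, Finset.sum_const, nsmul_eq_mul]

theorem int_card (u : Fin d → ℝ) (H : ℝ) (hH : 0 ≤ H) (l : ℕ) :
    Integrable (fun t => ((Kr u t (-1) H l).card : ℝ)) volume ∧
      ∫ t, ((Kr u t (-1) H l).card : ℝ) = ((2 * l + 1 : ℕ) : ℝ) ^ d * (2 * H) := by
  have h1 := int_shift ((Set.Icc (-H) H).indicator (fun _ => (1 : ℝ))) (Bx d l) u (ind_int H 1)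
  simp only [← card_Kr_eq] at h1
  refine ⟨h1.1, ?_⟩
  rw [h1.2, card_Bx, integral_indicator measurableSet_Icc]
  simp only [integral_const, smul_eq_mul, mul_one]
  rw [Measure.real, Measure.restrict_apply MeasurableSet.univ, Set.univ_inter, Real.volume_Icc,
    ENNReal.toReal_ofReal (by linarith)]
  push_cast
  ring

/-- The integrated inequality in a box. -/
theorem box_ineq (u : Fin d → ℝ) (R₀ : ℝ) (g : (Fin d → ℤ) → E → ℂ)
    (hloc : ∀ H, ∃ c, Loc u g H c) (H : ℝ) (hH : 1 ≤ H) (l c : ℕ) (hcl : c ≤ l)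
    (hc : Loc u g (H + (R₀ + 1)) c)
    (hrk : ∀ t : ℝ, (MT g (Kr u t 1 H (l + c)) (Cl E u (R₀ + 1) t l)).rank
        + (Kr u t (-1) 1 (l - c)).card
      ≤ (MT g (Kr u t (-1) H (l - c)) (Cl E u (R₀ + 1) t l)).rank
        + ((Kr u t (-1) H (l + c)).card - (Kr u t (-1) H (l - c)).card)) :
    ((2 * (l - c) + 1 : ℕ) : ℝ) ^ d * 2
      - (((2 * (l + c) + 1 : ℕ) : ℝ) ^ d * (2 * H) - ((2 * (l - c) + 1 : ℕ) : ℝ) ^ d * (2 * H))
      ≤ ((2 * l + 1 : ℕ) : ℝ) ^ d * ∫ s, Fd u (R₀ + 1) g H s := by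
  have h1 := int_card u 1 (by norm_num) (l - c)
  have h2 := int_card u H (by linarith) (l + c)
  have h3 := int_card u H (by linarith) (l - c)
  have h4 := int_shift (Fd u (R₀ + 1) g H) (Bx d l) u (Fd_int u (R₀ + 1) g hloc H)
  have h5 : ∫ t, (((Kr u t (-1) 1 (l - c)).card : ℝ) - (((Kr u t (-1) H (l + c)).card : ℝ)
        - ((Kr u t (-1) H (l - c)).card : ℝ)))
      ≤ ∫ t, ∑ m ∈ Bx d l, Fd u (R₀ + 1) g H (t + dotu u m) := by
    apply integral_mono (h1.1.sub (h2.1.sub h3.1)) h4.1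
    intro t
    exact pt_ineq u R₀ g hloc t H l c hcl hc (hrk t)
  have h7 : ∫ t, (((Kr u t (-1) H (l + c)).card : ℝ) - ((Kr u t (-1) H (l - c)).card : ℝ))
      = (∫ t, ((Kr u t (-1) H (l + c)).card : ℝ)) - ∫ t, ((Kr u t (-1) H (l - c)).card : ℝ) :=
    integral_sub h2.1 h3.1
  have h6 : ∫ t, (((Kr u t (-1) 1 (l - c)).card : ℝ) - (((Kr u t (-1) H (l + c)).card : ℝ)
        - ((Kr u t (-1) H (l - c)).card : ℝ)))
      = (∫ t, ((Kr u t (-1) 1 (l - c)).card : ℝ)) - ∫ t, (((Kr u t (-1) H (l + c)).card : ℝ)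
        - ((Kr u t (-1) H (l - c)).card : ℝ)) := integral_sub h1.1 (h2.1.sub h3.1)
  rw [h4.2, card_Bx, h6, h7, h1.2, h2.2, h3.2] at h5
  push_cast at h5 ⊢
  linarith

theorem lim_ratio (a b : ℕ) :
    Filter.Tendsto (fun n : ℕ => ((2 * (n + a) + 1 : ℕ) : ℝ) ^ d / ((2 * (n + b) + 1 : ℕ) : ℝ) ^ d)
      Filter.atTop (nhds 1) := by
  have h1 : Filter.Tendsto (fun n : ℕ => ((2 * (n + a) + 1 : ℕ) : ℝ) / ((2 * (n + b) + 1 : ℕ) : ℝ))
      Filter.atTop (nhds 1) := by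
    have h2 : ∀ n : ℕ, ((2 * (n + a) + 1 : ℕ) : ℝ) / ((2 * (n + b) + 1 : ℕ) : ℝ)
        = 1 + (2 * (a : ℝ) - 2 * b) / ((2 * (n + b) + 1 : ℕ) : ℝ) := by
      intro n
      have : ((2 * (n + b) + 1 : ℕ) : ℝ) ≠ 0 := by positivity
      field_simp
      push_cast
      ring
    simp only [h2]
    have h3 : Filter.Tendsto (fun n : ℕ => (2 * (a : ℝ) - 2 * b) / ((2 * (n + b) + 1 : ℕ) : ℝ))
        Filter.atTop (nhds 0) := by
      apply Filter.Tendsto.div_atTop tendsto_const_nhds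
      apply tendsto_natCast_atTop_atTop.comp
      apply Filter.tendsto_atTop_mono (f := fun n : ℕ => n) (fun n => by omega)
      exact Filter.tendsto_id
    simpa using h3.const_add 1
  simp only [← div_pow]
  simpa using h1.pow d

/-- The integral of the difference function is at least two. -/
theorem Fd_ge (u : Fin d → ℝ) (R₀ : ℝ) (g : (Fin d → ℤ) → E → ℂ)
    (hloc : ∀ H, ∃ c, Loc u g H c) (H : ℝ) (hH : 1 ≤ H) (c : ℕ)
    (hc : Loc u g (H + (R₀ + 1)) c)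
    (hrk : ∀ (t : ℝ) (l : ℕ), c ≤ l →
      (MT g (Kr u t 1 H (l + c)) (Cl E u (R₀ + 1) t l)).rank
        + (Kr u t (-1) 1 (l - c)).card
      ≤ (MT g (Kr u t (-1) H (l - c)) (Cl E u (R₀ + 1) t l)).rank
        + ((Kr u t (-1) H (l + c)).card - (Kr u t (-1) H (l - c)).card)) :
    2 ≤ ∫ s, Fd u (R₀ + 1) g H s := by
  set I := ∫ s, Fd u (R₀ + 1) g H s with hI
  have h1 : ∀ n : ℕ, (((2 * (n + 0) + 1 : ℕ) : ℝ) ^ d / ((2 * (n + c) + 1 : ℕ) : ℝ) ^ d) * 2
      - ((((2 * (n + 2 * c) + 1 : ℕ) : ℝ) ^ d / ((2 * (n + c) + 1 : ℕ) : ℝ) ^ d) * (2 * H)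
        - (((2 * (n + 0) + 1 : ℕ) : ℝ) ^ d / ((2 * (n + c) + 1 : ℕ) : ℝ) ^ d) * (2 * H)) ≤ I := by
    intro n
    have h2 := box_ineq u R₀ g hloc H hH (n + c) c (by omega) hc
      (fun t => hrk t (n + c) (by omega))
    have h3 : n + c - c = n + 0 := by omega
    have h4 : n + c + c = n + 2 * c := by omega
    rw [h3, h4] at h2
    have h5 : (0 : ℝ) < ((2 * (n + c) + 1 : ℕ) : ℝ) ^ d := by positivity
    rw [← hI] at h2
    have h6 : (((2 * (n + 0) + 1 : ℕ) : ℝ) ^ d / ((2 * (n + c) + 1 : ℕ) : ℝ) ^ d) * 2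
      - ((((2 * (n + 2 * c) + 1 : ℕ) : ℝ) ^ d / ((2 * (n + c) + 1 : ℕ) : ℝ) ^ d) * (2 * H)
        - (((2 * (n + 0) + 1 : ℕ) : ℝ) ^ d / ((2 * (n + c) + 1 : ℕ) : ℝ) ^ d) * (2 * H))
        = (((2 * (n + 0) + 1 : ℕ) : ℝ) ^ d * 2
      - (((2 * (n + 2 * c) + 1 : ℕ) : ℝ) ^ d * (2 * H) - ((2 * (n + 0) + 1 : ℕ) : ℝ) ^ d * (2 * H)))
        / ((2 * (n + c) + 1 : ℕ) : ℝ) ^ d := by
      ring
    rw [h6, div_le_iff₀ h5]
    linarith
  have h2 : Filter.Tendsto (fun n : ℕ =>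
      (((2 * (n + 0) + 1 : ℕ) : ℝ) ^ d / ((2 * (n + c) + 1 : ℕ) : ℝ) ^ d) * 2
      - ((((2 * (n + 2 * c) + 1 : ℕ) : ℝ) ^ d / ((2 * (n + c) + 1 : ℕ) : ℝ) ^ d) * (2 * H)
        - (((2 * (n + 0) + 1 : ℕ) : ℝ) ^ d / ((2 * (n + c) + 1 : ℕ) : ℝ) ^ d) * (2 * H)))
      Filter.atTop (nhds (1 * 2 - (1 * (2 * H) - 1 * (2 * H)))) :=
    ((lim_ratio 0 c).mul_const 2).sub
      (((lim_ratio (2 * c) c).mul_const (2 * H)).sub ((lim_ratio 0 c).mul_const (2 * H)))
  have h3 := le_of_tendsto h2 (Filter.Eventually.of_forall h1)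
  linarith

end

end Pool.Agent.Helper51.FS
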