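import Pool.Agent.Helper51.FS.Dim5

set_option autoImplicit false

namespace Pool.Agent.Helper51.FS

open MeasureTheory
open scoped ComplexConjugate ENNReal InnerProductSpace

set_option linter.unusedSectionVars false

noncomputable section

variable {d : ℕ} {E : Type} [Fintype E]

theorem RS_mono (u : Fin d → ℝ) (R : ℝ) (g : (Fin d → ℤ) → E → ℂ) (t : ℝ)
    {I J : Set (Fin d → ℤ)} (h : I ⊆ J) : RS u R g t I ≤ RS u R g t J :=
  Submodule.span_mono (Set.image_mono h)

theorem Ir_mono (u : Fin d → ℝ) (t a : ℝ) {H K : ℝ} (h : H ≤ K) : Ir u t a H ⊆ Ir u t a K :=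
  fun _ hm => ⟨hm.1, hm.2.trans h⟩

theorem RS_union (u : Fin d → ℝ) (R : ℝ) (g : (Fin d → ℤ) → E → ℂ) (t a : ℝ)
    (y : ell2 ((Fin d → ℤ) × E)) (hy : y ∈ RS u R g t {m | a < |dotu u m + t|}) :
    ∃ n : ℕ, y ∈ RS u R g t (Ir u t a n) := by
  unfold RS at hy
  refine Submodule.closure_induction (p := fun y _ => ∃ n : ℕ, y ∈ RS u R g t (Ir u t a n))
    ?_ ?_ ?_ hy
  · exact ⟨0, Submodule.zero_mem _⟩
  · rintro x z _ _ ⟨n1, h1⟩ ⟨n2, h2⟩
    refine ⟨max n1 n2, Submodule.add_mem _ ?_ ?_⟩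
    · exact RS_mono u R g t (Ir_mono u t a (by exact_mod_cast le_max_left n1 n2)) h1
    · exact RS_mono u R g t (Ir_mono u t a (by exact_mod_cast le_max_right n1 n2)) h2
  · rintro b _ ⟨m₁, hm₁, rfl⟩
    obtain ⟨n, hn⟩ := exists_nat_ge |dotu u m₁ + t|
    exact ⟨n, Submodule.smul_mem _ _ (Submodule.subset_span ⟨m₁, ⟨hm₁, hn⟩, rfl⟩)⟩

theorem infDist_lim (u : Fin d → ℝ) (R : ℝ) (g : (Fin d → ℤ) → E → ℂ) (t a : ℝ)
    (x : ell2 ((Fin d → ℤ) × E)) :
    Filter.Tendsto (fun n : ℕ => Metric.infDist x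
      (RS u R g t (Ir u t a n) : Set (ell2 ((Fin d → ℤ) × E)))) Filter.atTop
      (nhds (Metric.infDist x
        (RS u R g t {m | a < |dotu u m + t|} : Set (ell2 ((Fin d → ℤ) × E))))) := by
  rw [Metric.tendsto_atTop]
  intro ε hε
  have hne : (RS u R g t {m | a < |dotu u m + t|} : Set (ell2 ((Fin d → ℤ) × E))).Nonempty :=
    ⟨0, Submodule.zero_mem _⟩
  obtain ⟨y, hy, hxy⟩ := (Metric.infDist_lt_iff (x := x) hne).mp
    (lt_add_of_pos_right (Metric.infDist x
      (RS u R g t {m | a < |dotu u m + t|} : Set (ell2 ((Fin d → ℤ) × E)))) hε)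
  obtain ⟨N, hN⟩ := RS_union u R g t a y hy
  refine ⟨N, fun n hn => ?_⟩
  have h1 : Metric.infDist x (RS u R g t (Ir u t a n) : Set (ell2 ((Fin d → ℤ) × E)))
      ≤ dist x y := Metric.infDist_le_dist_of_mem
    (RS_mono u R g t (Ir_mono u t a (by exact_mod_cast hn)) hN)
  have h2 : Metric.infDist x
        (RS u R g t {m | a < |dotu u m + t|} : Set (ell2 ((Fin d → ℤ) × E)))
      ≤ Metric.infDist x (RS u R g t (Ir u t a n) : Set (ell2 ((Fin d → ℤ) × E))) :=
    Metric.infDist_le_infDist_of_subset (RS_mono u R g t (fun m hm => hm.1))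
      ⟨0, Submodule.zero_mem _⟩
  rw [Real.dist_eq, abs_of_nonneg (by linarith)]
  linarith

theorem vd_lim (u : Fin d → ℝ) (R : ℝ) (g : (Fin d → ℤ) → E → ℂ) (a t : ℝ) :
    Filter.Tendsto (fun n : ℕ => vd u R g a n t) Filter.atTop (nhds (vinf u R g a t)) := by
  unfold vd vinf
  exact tendsto_finsetSum _ (fun e _ => (infDist_lim u R g t a _).pow 2)

/-- There is a height at which the two limit distances differ. -/
theorem exists_gap (u : Fin d → ℝ) (R₀ : ℝ) (g : (Fin d → ℤ) → E → ℂ)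
    (hloc : ∀ H, ∃ c, Loc u g H c)
    (hrk : ∀ H : ℝ, 1 ≤ H → ∃ c : ℕ, Loc u g (H + (R₀ + 1)) c ∧ ∀ (t : ℝ) (l : ℕ), c ≤ l →
      (MT g (Kr u t 1 H (l + c)) (Cl E u (R₀ + 1) t l)).rank
        + (Kr u t (-1) 1 (l - c)).card
      ≤ (MT g (Kr u t (-1) H (l - c)) (Cl E u (R₀ + 1) t l)).rank
        + ((Kr u t (-1) H (l + c)).card - (Kr u t (-1) H (l - c)).card)) :
    ∃ t : ℝ, vinf u (R₀ + 1) g (-1) t < vinf u (R₀ + 1) g 1 t := by
  classical
  by_contra hcon
  push Not at hcon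
  set G : ℝ → ℝ := (Set.Icc (-(R₀ + 1)) (R₀ + 1)).indicator
    (fun s => vinf u (R₀ + 1) g 1 s - vinf u (R₀ + 1) g (-1) s) with hG
  have hlim : ∀ s, Filter.Tendsto (fun n : ℕ => Fd u (R₀ + 1) g n s) Filter.atTop
      (nhds (G s)) := by
    intro s
    unfold Fd
    by_cases hs : s ∈ Set.Icc (-(R₀ + 1)) (R₀ + 1)
    · simp only [hG, Set.indicator_of_mem hs]
      exact (vd_lim u (R₀ + 1) g 1 s).sub (vd_lim u (R₀ + 1) g (-1) s)
    · simp only [hG, Set.indicator_of_notMem hs]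
      exact tendsto_const_nhds
  have h1 := tendsto_integral_of_dominated_convergence
    (F := fun n : ℕ => Fd u (R₀ + 1) g (n : ℝ)) (f := G)
    ((Set.Icc (-(R₀ + 1)) (R₀ + 1)).indicator (fun _ => (Fintype.card E : ℝ)))
    (fun n => (Fd_meas u (R₀ + 1) g hloc n).aestronglyMeasurable) (ind_int _ _)
    (fun n => Filter.Eventually.of_forall (fun s => Fd_bound u (R₀ + 1) g n s))
    (Filter.Eventually.of_forall hlim)
  have h2 : (2 : ℝ) ≤ ∫ s, G s := by
    refine ge_of_tendsto h1 ?_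
    filter_upwards [Filter.eventually_ge_atTop 1] with n hn
    obtain ⟨c, hc, hr⟩ := hrk n (by exact_mod_cast hn)
    exact Fd_ge u R₀ g hloc n (by exact_mod_cast hn) c hc hr
  have h3 : ∫ s, G s ≤ 0 := by
    apply integral_nonpos
    intro s
    simp only [hG, Pi.zero_apply]
    by_cases hs : s ∈ Set.Icc (-(R₀ + 1)) (R₀ + 1)
    · simp only [Set.indicator_of_mem hs]
      linarith [hcon s]
    · simp only [Set.indicator_of_notMem hs, le_refl]
  linarith

/-- Extraction of a square summable solution. -/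
theorem extract (u : Fin d → ℝ) (R : ℝ) (g : (Fin d → ℤ) → E → ℂ)
    (hloc : ∀ H, ∃ c, Loc u g H c) (t : ℝ) (h : vinf u R g (-1) t < vinf u R g 1 t) :
    ∃ K : ell2 ((Fin d → ℤ) × E),
      (∀ p, R < |dotu u p.1 + t| → K p = 0) ∧
      (∀ m₁ : Fin d → ℤ, 1 < |dotu u m₁ + t| →
        ∑' p : (Fin d → ℤ) × E, g (m₁ - p.1) p.2 * K p = 0) ∧
      ∃ m₁ : Fin d → ℤ, ∑' p : (Fin d → ℤ) × E, g (m₁ - p.1) p.2 * K p ≠ 0 := by
  classical
  set V1 := RS u R g t {m | 1 < |dotu u m + t|} with hV1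
  set V2 := RS u R g t {m | (-1 : ℝ) < |dotu u m + t|} with hV2
  have h1 : ¬ (V2 ≤ V1.topologicalClosure) := by
    intro hle
    apply absurd h
    rw [not_lt]
    unfold vinf
    refine Finset.sum_le_sum (fun e _ => ?_)
    have h2 : Metric.infDist (bv ((0 : Fin d → ℤ), e)) (V1 : Set (ell2 ((Fin d → ℤ) × E)))
        ≤ Metric.infDist (bv ((0 : Fin d → ℤ), e)) (V2 : Set (ell2 ((Fin d → ℤ) × E))) := by
      rw [← Metric.infDist_closure (s := (V1 : Set (ell2 ((Fin d → ℤ) × E))))]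
      apply Metric.infDist_le_infDist_of_subset _ ⟨0, Submodule.zero_mem _⟩
      exact hle
    have h3 := Metric.infDist_nonneg (x := bv ((0 : Fin d → ℤ), e))
      (s := (V1 : Set (ell2 ((Fin d → ℤ) × E))))
    exact pow_le_pow_left₀ h3 h2 2
  rw [SetLike.not_le_iff_exists] at h1
  obtain ⟨r, hr2, hr1⟩ := h1
  set W := V1.topologicalClosure with hW
  have hWc : IsComplete (W : Set (ell2 ((Fin d → ℤ) × E))) :=
    (Submodule.isClosed_topologicalClosure V1).isComplete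
  have : CompleteSpace W := hWc.completeSpace_coe
  set K₀ : ell2 ((Fin d → ℤ) × E) := r - W.starProjection r with hK₀
  have hK₀mem : K₀ ∈ Wᗮ := W.sub_starProjection_mem_orthogonal r
  have hK₀ne : K₀ ≠ 0 := by
    intro h0
    apply hr1
    have : r = W.starProjection r := by rw [hK₀] at h0; exact sub_eq_zero.mp h0
    rw [this]
    exact W.starProjection_apply_mem r
  have hK₀r : inner ℂ K₀ r ≠ 0 := by
    have h4 : inner ℂ K₀ r = inner ℂ K₀ K₀ := by
      have h5 : r = K₀ + W.starProjection r := by rw [hK₀]; abel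
      have h6 : inner ℂ K₀ (W.starProjection r) = 0 :=
        (Submodule.mem_orthogonal' W K₀).mp hK₀mem _ (W.starProjection_apply_mem r)
      conv_lhs => rw [h5]
      rw [inner_add_right, h6, add_zero]
    rw [h4]
    exact inner_self_ne_zero.mpr hK₀ne
  have hmem : Memℓp (fun p : (Fin d → ℤ) × E =>
      (if |dotu u p.1 + t| ≤ R then (1 : ℂ) else 0) * K₀ p) 2 := by
    apply nz_memlp _ 1 (by norm_num)
    intro p
    split_ifs <;> simp
  set K : ell2 ((Fin d → ℤ) × E) := ⟨_, hmem⟩ with hK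
  have hKapp : ∀ p, K p = (if |dotu u p.1 + t| ≤ R then (1 : ℂ) else 0) * K₀ p := fun p => rfl
  have hpair : ∀ m₁, inner ℂ (rowv u R g t m₁) K₀
      = ∑' p : (Fin d → ℤ) × E, g (m₁ - p.1) p.2 * K p := by
    intro m₁
    rw [lp.inner_eq_tsum]
    congr 1
    ext p
    rw [rowv_apply u R g hloc, rowf, hKapp]
    split_ifs with h7
    · simp [mul_comm]
    · simp
  refine ⟨K, ?_, ?_, ?_⟩
  · intro p hp
    rw [hKapp, if_neg (not_le.mpr hp), zero_mul]
  · intro m₁ hm₁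
    rw [← hpair]
    have h8 : rowv u R g t m₁ ∈ W :=
      V1.le_topologicalClosure (Submodule.subset_span ⟨m₁, hm₁, rfl⟩)
    exact (Submodule.mem_orthogonal W K₀).mp hK₀mem _ h8
  · by_contra hcon
    push Not at hcon
    apply hK₀r
    have h9 : ∀ y ∈ V2, inner ℂ K₀ y = 0 := by
      intro y hy
      rw [hV2] at hy
      unfold RS at hy
      refine Submodule.closure_induction (p := fun y _ => inner ℂ K₀ y = 0) ?_ ?_ ?_ hy
      · exact inner_zero_right _
      · intro x z _ _ hx hz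
        rw [inner_add_right, hx, hz, add_zero]
      · rintro b _ ⟨m₁, _, rfl⟩
        rw [inner_smul_right, ← inner_conj_symm, hpair, hcon m₁, map_zero, mul_zero]
    exact h9 r hr2

end

end Pool.Agent.Helper51.FS
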