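import Pool.Agent.Helper51.FS.NZ

set_option autoImplicit false

namespace Pool.Agent.Helper51.FS

open MeasureTheory UnitAddTorus
open scoped ComplexConjugate ENNReal

noncomputable section

/-- Trigonometric polynomials on the torus. -/
def IsTP {r : ℕ} (f : UnitAddTorus (Fin r) → ℂ) : Prop :=
  ∃ g : C(UnitAddTorus (Fin r), ℂ), g ∈ (mFourierSubalgebra (Fin r)).toSubalgebra ∧ ∀ x, f x = g x

namespace IsTP

variable {r : ℕ}

theorem const (c : ℂ) : IsTP (fun _ : UnitAddTorus (Fin r) => c) :=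
  ⟨algebraMap ℂ _ c, Subalgebra.algebraMap_mem _ c, fun _ => rfl⟩

theorem mono (n : Fin r → ℤ) : IsTP (fun x : UnitAddTorus (Fin r) => mFourier n x) :=
  ⟨mFourier n, Algebra.subset_adjoin ⟨n, rfl⟩, fun _ => rfl⟩

theorem add {f g : UnitAddTorus (Fin r) → ℂ} (hf : IsTP f) (hg : IsTP g) :
    IsTP (fun x => f x + g x) := by
  obtain ⟨F, hF, hF'⟩ := hf
  obtain ⟨G, hG, hG'⟩ := hg
  exact ⟨F + G, Subalgebra.add_mem _ hF hG, fun x => by simp [hF', hG']⟩

theorem mul {f g : UnitAddTorus (Fin r) → ℂ} (hf : IsTP f) (hg : IsTP g) :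
    IsTP (fun x => f x * g x) := by
  obtain ⟨F, hF, hF'⟩ := hf
  obtain ⟨G, hG, hG'⟩ := hg
  exact ⟨F * G, Subalgebra.mul_mem _ hF hG, fun x => by simp [hF', hG']⟩

theorem sum {ι : Type*} (s : Finset ι) {f : ι → UnitAddTorus (Fin r) → ℂ}
    (hf : ∀ i ∈ s, IsTP (f i)) : IsTP (fun x => ∑ i ∈ s, f i x) := by
  classical
  induction s using Finset.induction_on with
  | empty => simpa using const (r := r) 0
  | insert a s ha ih =>
    simp only [Finset.sum_insert ha]
    exact (hf a (Finset.mem_insert_self a s)).add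
      (ih (fun i hi => hf i (Finset.mem_insert_of_mem hi)))

theorem prod {ι : Type*} (s : Finset ι) {f : ι → UnitAddTorus (Fin r) → ℂ}
    (hf : ∀ i ∈ s, IsTP (f i)) : IsTP (fun x => ∏ i ∈ s, f i x) := by
  classical
  induction s using Finset.induction_on with
  | empty => simpa using const (r := r) 1
  | insert a s ha ih =>
    simp only [Finset.prod_insert ha]
    exact (hf a (Finset.mem_insert_self a s)).mul
      (ih (fun i hi => hf i (Finset.mem_insert_of_mem hi)))

theorem det {k : ℕ} {P : UnitAddTorus (Fin r) → Matrix (Fin k) (Fin k) ℂ}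
    (hP : ∀ i j, IsTP (fun x => P x i j)) : IsTP (fun x => (P x).det) := by
  have h : (fun x => (P x).det) = fun x => ∑ σ ∈ (Finset.univ : Finset (Equiv.Perm (Fin k))),
      (((Equiv.Perm.sign σ : ℤ) : ℂ) * ∏ i ∈ (Finset.univ : Finset (Fin k)), P x (σ i) i) := by
    ext x
    rw [Matrix.det_apply']
  rw [h]
  exact sum _ (fun σ _ => (const _).mul (prod _ (fun i _ => hP _ _)))

theorem conj' {f : UnitAddTorus (Fin r) → ℂ} (hf : IsTP f) : IsTP (fun x => conj (f x)) := by
  obtain ⟨F, hF, hF'⟩ := hf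
  exact ⟨star F, star_mem (s := mFourierSubalgebra (Fin r)) hF, fun x => by simp [hF']⟩

end IsTP

/-- Rationally independent real numbers exist. -/
theorem exists_indep (r : ℕ) : ∃ u : Fin r → ℝ, ∀ m : Fin r → ℤ, dotu u m = 0 → m = 0 := by
  have hT := transcendental_liouvilleNumber (m := 2) le_rfl
  set x : ℝ := liouvilleNumber ((2 : ℕ) : ℝ) with hx
  refine ⟨fun i => x ^ (i : ℕ), fun m hm => ?_⟩
  set p : Polynomial ℤ := ∑ i : Fin r, Polynomial.monomial (i : ℕ) (m i) with hp
  have h1 : Polynomial.aeval x p = 0 := by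
    rw [hp, map_sum]
    unfold dotu at hm
    rw [← hm]
    refine Finset.sum_congr rfl (fun i _ => ?_)
    rw [Polynomial.aeval_monomial]
    simp
  have h2 : p = 0 := by
    by_contra hne
    exact hT ⟨p, hne, h1⟩
  ext i
  have h3 : p.coeff (i : ℕ) = m i := by
    rw [hp, Polynomial.finsetSum_coeff]
    rw [Finset.sum_eq_single i]
    · simp
    · intro j _ hj
      rw [Polynomial.coeff_monomial, if_neg]
      intro h
      exact hj (Fin.ext h)
    · simp
  rw [← h3, h2]
  simp

theorem coeff_mFourier {r : ℕ} (n m : Fin r → ℤ) :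
    mFourierCoeff (fun x => mFourier (d := Fin r) n x) m = if n = m then 1 else 0 := by
  have h := orthonormal_iff_ite.mp (orthonormal_mFourier (d := Fin r)) m n
  have h2 := (mFourierBasis_repr (mFourierLp (d := Fin r) 2 n) m)
  have h3 : mFourierCoeff (fun x => mFourier (d := Fin r) n x) m
      = mFourierCoeff (mFourierLp (d := Fin r) 2 n) m := (mFourierCoeff_toLp (mFourier n) m).symm
  rw [h3, ← h2, mFourierBasis.repr_apply_apply, coe_mFourierBasis, h]
  simp only [eq_comm]

/-- A non-zero trigonometric polynomial is non-zero almost everywhere. -/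
theorem tp_ae {r : ℕ} (f : UnitAddTorus (Fin r) → ℂ) (hf : IsTP f) (x₀ : UnitAddTorus (Fin r))
    (h0 : f x₀ ≠ 0) : ∀ᵐ x ∂(haarT r), f x ≠ 0 := by
  obtain ⟨g, hg, hfg⟩ := hf
  obtain ⟨u, hu⟩ := exists_indep r
  have hspan : g ∈ Submodule.span ℂ (Set.range (mFourier (d := Fin r))) := by
    rw [← mFourierSubalgebra_coe]
    exact hg
  have hc : ∃ c : ℝ, ∀ m : Fin r → ℤ, c < |dotu u m| → mFourierCoeff g m = 0 := by
    refine Submodule.span_induction (p := fun (g : C(UnitAddTorus (Fin r), ℂ)) _ =>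
      ∃ c : ℝ, ∀ m : Fin r → ℤ, c < |dotu u m| → mFourierCoeff g m = 0) ?_ ?_ ?_ ?_ hspan
    · rintro _ ⟨n, rfl⟩
      refine ⟨|dotu u n|, fun m hm => ?_⟩
      have := coeff_mFourier n m
      rw [if_neg (by rintro rfl; exact lt_irrefl _ hm)] at this
      exact this
    · exact ⟨0, fun m _ => by simp [mFourierCoeff]⟩
    · rintro a b _ _ ⟨c1, h1⟩ ⟨c2, h2⟩
      refine ⟨max c1 c2, fun m hm => ?_⟩
      have e1 := h1 m (lt_of_le_of_lt (le_max_left _ _) hm)
      have e2 := h2 m (lt_of_le_of_lt (le_max_right _ _) hm)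
      rw [← mFourierCoeff_toLp] at e1 e2 ⊢
      rw [← mFourierBasis_repr] at e1 e2 ⊢
      rw [map_add, map_add]
      simp only [lp.coeFn_add, Pi.add_apply, e1, e2, add_zero]
    · rintro a x _ ⟨c1, h1⟩
      refine ⟨c1, fun m hm => ?_⟩
      have e1 := h1 m hm
      rw [← mFourierCoeff_toLp] at e1 ⊢
      rw [← mFourierBasis_repr] at e1 ⊢
      rw [map_smul, map_smul]
      simp only [lp.coeFn_smul, Pi.smul_apply, e1, smul_zero]
  obtain ⟨c, hc⟩ := hc
  set F : L2T r := ContinuousMap.toLp 2 (haarT r) ℂ g with hF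
  have hFg : (F : UnitAddTorus (Fin r) → ℂ) =ᵐ[haarT r] g := ContinuousMap.coeFn_toLp _ g
  have hFne : F ≠ 0 := by
    intro h
    have h1 : (g : UnitAddTorus (Fin r) → ℂ) =ᵐ[haarT r] fun _ => 0 := by
      filter_upwards [hFg, Lp.coeFn_zero ℂ 2 (haarT r)] with x h1 h2
      rw [← h1, h]
      exact h2
    have h2 : (g : UnitAddTorus (Fin r) → ℂ) = fun _ => 0 :=
      MeasureTheory.Measure.eq_of_ae_eq h1 g.continuous continuous_const
    apply h0
    rw [hfg, h2]
  have := nz_ae u hu c F (fun m hm => by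
    have e1 := hc m hm
    rw [← mFourierCoeff_toLp] at e1
    exact e1) hFne
  filter_upwards [this, hFg] with x h1 h2
  rw [hfg, ← h2]
  exact h1

theorem rank_factor {m n : Type} [Fintype m] [Fintype n] [DecidableEq m] [DecidableEq n]
    (A : Matrix m n ℂ) : ∃ (B : Matrix (Fin A.rank) m ℂ) (C : Matrix n (Fin A.rank) ℂ),
      B * A * C = 1 := by
  have hV : Module.finrank ℂ (LinearMap.range A.mulVecLin) = A.rank := rfl
  set b := Module.finBasisOfFinrankEq ℂ (LinearMap.range A.mulVecLin) hV with hb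
  have hpre : ∀ k : Fin A.rank, ∃ c : n → ℂ, A.mulVec c = (b k : m → ℂ) := by
    intro k
    obtain ⟨c, hc⟩ := (b k).2
    exact ⟨c, hc⟩
  choose c hc using hpre
  set C : Matrix n (Fin A.rank) ℂ := Matrix.of (fun j k => c k j) with hC
  have hcol : ∀ k, (A * C).mulVec (Pi.single k 1) = (b k : m → ℂ) := by
    intro k
    rw [← Matrix.mulVec_mulVec, ← hc k]
    congr 1
    ext j
    simp [Matrix.mulVec_single, hC]
  have hinj : LinearMap.ker (A * C).mulVecLin = ⊥ := by
    rw [LinearMap.ker_eq_bot']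
    intro v hv
    have h1 : (A * C).mulVecLin v = ((∑ k, v k • b k : LinearMap.range A.mulVecLin) : m → ℂ) := by
      have h2 : v = ∑ k, v k • (Pi.single k (1 : ℂ) : Fin A.rank → ℂ) := by
        ext k
        simp [Finset.sum_apply, Pi.single_apply]
      conv_lhs => rw [h2]
      rw [map_sum]
      push_cast
      refine Finset.sum_congr rfl (fun k _ => ?_)
      rw [map_smul]
      congr 1
      exact hcol k
    rw [h1] at hv
    have h3 : (∑ k, v k • b k : LinearMap.range A.mulVecLin) = 0 := Subtype.ext hv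
    have h4 := Fintype.linearIndependent_iff.mp b.linearIndependent v h3
    ext k
    exact h4 k
  obtain ⟨g, hg⟩ := LinearMap.exists_leftInverse_of_injective (A * C).mulVecLin hinj
  refine ⟨LinearMap.toMatrix' g, C, ?_⟩
  have h5 : Matrix.mulVecLin (LinearMap.toMatrix' g * A * C) = LinearMap.id := by
    rw [← hg]
    ext v i
    simp only [Matrix.mulVecLin_apply, LinearMap.comp_apply, Matrix.mul_assoc]
    rw [← Matrix.mulVec_mulVec, LinearMap.toMatrix'_mulVec]
  apply Matrix.toLin'.injective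
  rw [Matrix.toLin'_one]
  exact h5

/-- The rank of a matrix of trigonometric polynomials is almost everywhere equal to its
maximum. -/
theorem generic_rank {r : ℕ} {m n : Type} [Fintype m] [Fintype n] [DecidableEq m]
    [DecidableEq n] (P : UnitAddTorus (Fin r) → Matrix m n ℂ)
    (hP : ∀ i j, IsTP (fun x => P x i j)) :
    ∃ R : ℕ, (∀ x, (P x).rank ≤ R) ∧ ∀ᵐ x ∂(haarT r), (P x).rank = R := by
  classical
  have hbdd : BddAbove (Set.range fun x => (P x).rank) :=
    ⟨Fintype.card n, by rintro _ ⟨x, rfl⟩; exact (P x).rank_le_card_width⟩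
  have hne : (Set.range fun x => (P x).rank).Nonempty := ⟨_, ⟨0, rfl⟩⟩
  obtain ⟨x₀, hx₀⟩ := Nat.sSup_mem hne hbdd
  set R := sSup (Set.range fun x => (P x).rank) with hR
  have hle : ∀ x, (P x).rank ≤ R := fun x => le_csSup hbdd ⟨x, rfl⟩
  refine ⟨R, hle, ?_⟩
  obtain ⟨B, C, hBC⟩ := rank_factor (P x₀)
  have htp : IsTP (fun x => (B * P x * C).det) := by
    apply IsTP.det
    intro i j
    simp only [Matrix.mul_apply]
    refine IsTP.sum _ (fun l _ => IsTP.mul (IsTP.sum _ (fun k _ => ?_)) (IsTP.const _))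
    exact (IsTP.const _).mul (hP _ _)
  have h1 := tp_ae _ htp x₀ (by simp [hBC])
  filter_upwards [h1] with x hx
  apply le_antisymm (hle x)
  have h2 : (B * P x * C).rank = (P x₀).rank := by
    have := Matrix.rank_of_isUnit (B * P x * C)
      ((Matrix.isUnit_iff_isUnit_det _).mpr (isUnit_iff_ne_zero.mpr hx))
    rw [this, Fintype.card_fin]
  have h3 : (B * P x * C).rank ≤ (P x).rank :=
    ((Matrix.rank_mul_le_left _ _).trans (Matrix.rank_mul_le_right _ _))
  have hx₀' : (P x₀).rank = R := hx₀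
  omega

end

end Pool.Agent.Helper51.FS
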