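import Mathlib

set_option autoImplicit false

namespace Pool.Agent.Helper51.FS

open MeasureTheory UnitAddTorus
open scoped ComplexConjugate ENNReal

noncomputable section

/-- The Haar probability measure of the torus. -/
abbrev haarT (d : ℕ) : Measure (UnitAddTorus (Fin d)) :=
  Measure.pi fun _ => AddCircle.haarAddCircle

/-- The real number `∑ m_i u_i`. -/
def dotu {d : ℕ} (u : Fin d → ℝ) (m : Fin d → ℤ) : ℝ := ∑ i, (m i : ℝ) * u i

/-- The point `s u` of the torus. -/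
def flow {d : ℕ} (u : Fin d → ℝ) (s : ℝ) : UnitAddTorus (Fin d) :=
  fun i => ((s * u i : ℝ) : AddCircle (1 : ℝ))

/-- The square summable families. -/
abbrev ell2 (ι : Type) := lp (fun _ : ι => ℂ) 2

theorem nz_memlp {ι : Type} (w : ι → ℂ) (C : ℝ) (hC : 0 ≤ C) (hw : ∀ i, ‖w i‖ ≤ C)
    (a : ell2 ι) : Memℓp (fun i => w i * a i) 2 := by
  have h := lp.memℓp ((C : ℂ) • a)
  rw [memℓp_gen_iff (by norm_num)] at h ⊢
  refine h.of_nonneg_of_le (fun i => by positivity) (fun i => ?_)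
  apply Real.rpow_le_rpow (norm_nonneg _) _ (by norm_num)
  rw [norm_mul]
  simp only [lp.coeFn_smul, Pi.smul_apply, smul_eq_mul, norm_mul, Complex.norm_real,
    Real.norm_eq_abs, abs_of_nonneg hC]
  exact mul_le_mul_of_nonneg_right (hw i) (norm_nonneg _)

/-- Multiplication by a bounded family. -/
def mulC {ι : Type} (w : ι → ℂ) (C : ℝ) (hC : 0 ≤ C) (hw : ∀ i, ‖w i‖ ≤ C) :
    ell2 ι →L[ℂ] ell2 ι :=
  LinearMap.mkContinuous
    { toFun := fun a => ⟨fun i => w i * a i, nz_memlp w C hC hw a⟩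
      map_add' := by
        intro a b
        ext i
        simp only [lp.coeFn_add, Pi.add_apply, mul_add]
      map_smul' := by
        intro c a
        ext i
        simp only [lp.coeFn_smul, Pi.smul_apply, smul_eq_mul, RingHom.id_apply]
        ring } C (by
    intro a
    have : ‖((C : ℂ) • a : ell2 ι)‖ = C * ‖a‖ := by
      rw [norm_smul, Complex.norm_real, Real.norm_eq_abs, abs_of_nonneg hC]
    rw [← this]
    apply lp.norm_mono (by norm_num)
    intro i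
    simp only [LinearMap.coe_mk, AddHom.coe_mk, lp.coeFn_smul, Pi.smul_apply, smul_eq_mul,
      norm_mul, Complex.norm_real, Real.norm_eq_abs, abs_of_nonneg hC]
    exact mul_le_mul_of_nonneg_right (hw i) (norm_nonneg _))

theorem mulC_apply {ι : Type} (w : ι → ℂ) (C : ℝ) (hC : 0 ≤ C) (hw : ∀ i, ‖w i‖ ≤ C)
    (a : ell2 ι) (i : ι) : mulC w C hC hw a i = w i * a i := rfl

/-- The Hilbert space of the torus. -/
abbrev L2T (d : ℕ) := Lp ℂ 2 (haarT d)

theorem mp_flow {d : ℕ} (u : Fin d → ℝ) (s : ℝ) :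
    MeasurePreserving (fun x : UnitAddTorus (Fin d) => x + flow u s) (haarT d) (haarT d) :=
  measurePreserving_add_right (haarT d) (flow u s)

/-- Translation along the flow. -/
def tr {d : ℕ} (u : Fin d → ℝ) (s : ℝ) (f : L2T d) : L2T d :=
  Lp.compMeasurePreserving (fun x => x + flow u s) (mp_flow u s) f

theorem tr_coe {d : ℕ} (u : Fin d → ℝ) (s : ℝ) (f : L2T d) :
    (tr u s f : UnitAddTorus (Fin d) → ℂ) =ᵐ[haarT d] fun x => f (x + flow u s) :=
  Lp.coeFn_compMeasurePreserving f (mp_flow u s)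

/-- The character value `e(s m_u)`. -/
def ec (y : ℝ) : ℂ := Complex.exp (2 * Real.pi * Complex.I * (y : ℂ))

theorem mFourier_flow {d : ℕ} (u : Fin d → ℝ) (s : ℝ) (m : Fin d → ℤ)
    (x : UnitAddTorus (Fin d)) :
    mFourier m (x + flow u s) = mFourier m x * ec (s * dotu u m) := by
  have h1 : ec (s * dotu u m) = ∏ i, fourier (m i) (flow u s i) := by
    unfold ec flow dotu
    simp only [fourier_coe_apply]
    rw [← Complex.exp_sum]
    congr 1
    push_cast
    rw [Finset.mul_sum, Finset.mul_sum]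
    refine Finset.sum_congr rfl (fun i _ => ?_)
    ring
  rw [h1]
  simp only [mFourier, ContinuousMap.coe_mk, ← Finset.prod_mul_distrib, Pi.add_apply]
  refine Finset.prod_congr rfl (fun i _ => ?_)
  simp only [fourier_apply, smul_add, AddCircle.toCircle_add, Circle.coe_mul]

theorem coeff_def {d : ℕ} (f : UnitAddTorus (Fin d) → ℂ) (m : Fin d → ℤ) :
    mFourierCoeff f m = ∫ t, mFourier (-m) t • f t ∂(haarT d) := rfl

theorem coeff_tr {d : ℕ} (u : Fin d → ℝ) (s : ℝ) (f : UnitAddTorus (Fin d) → ℂ)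
    (m : Fin d → ℤ) :
    mFourierCoeff (fun x => f (x + flow u s)) m = ec (s * dotu u m) * mFourierCoeff f m := by
  have h := integral_add_right_eq_self (μ := haarT d)
    (fun t : UnitAddTorus (Fin d) => mFourier (-m) (t) • f t) (flow u s)
  rw [coeff_def, coeff_def, ← h, ← integral_const_mul]
  refine integral_congr_ae (Filter.Eventually.of_forall (fun t => ?_))
  simp only [mFourier_flow, smul_eq_mul]
  have h2 : dotu u (-m) = - dotu u m := by
    simp [dotu]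
  have h3 : ec (s * dotu u m) * ec (s * dotu u (-m)) = 1 := by
    unfold ec
    rw [← Complex.exp_add, h2]
    push_cast
    ring_nf
    simp
  calc mFourier (-m) t * f (t + flow u s)
      = (ec (s * dotu u m) * ec (s * dotu u (-m))) * (mFourier (-m) t * f (t + flow u s)) := by
        rw [h3, one_mul]
    _ = _ := by ring

/-- The Fourier isometry. -/
def FT (d : ℕ) : L2T d ≃ₗᵢ[ℂ] ell2 (Fin d → ℤ) := (mFourierBasis (d := Fin d)).repr

theorem FT_apply {d : ℕ} (f : L2T d) (m : Fin d → ℤ) : FT d f m = mFourierCoeff f m :=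
  mFourierBasis_repr f m

theorem FT_tr {d : ℕ} (u : Fin d → ℝ) (s : ℝ) (f : L2T d) (m : Fin d → ℤ) :
    FT d (tr u s f) m = ec (s * dotu u m) * FT d f m := by
  rw [FT_apply, FT_apply, ← coeff_tr, coeff_def, coeff_def]
  refine integral_congr_ae ?_
  filter_upwards [tr_coe u s f] with x hx
  rw [hx]

/-- Frequencies bounded by `c`. -/
def BL {d : ℕ} (u : Fin d → ℝ) (c : ℝ) (f : L2T d) : Prop :=
  ∀ m : Fin d → ℤ, c < |dotu u m| → FT d f m = 0

open Classical in
/-- The derivative multiplier, cut at `c`. -/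
def dw {d : ℕ} (u : Fin d → ℝ) (c : ℝ) (m : Fin d → ℤ) : ℂ :=
  if |dotu u m| ≤ c then 2 * Real.pi * Complex.I * (dotu u m : ℂ) else 0

theorem dw_le {d : ℕ} (u : Fin d → ℝ) (c : ℝ) (hc : 0 ≤ c) (m : Fin d → ℤ) :
    ‖dw u c m‖ ≤ 2 * Real.pi * c := by
  unfold dw
  have hp := Real.pi_pos
  split_ifs with h
  · simp only [norm_mul, Complex.norm_ofNat, Complex.norm_real, Real.norm_eq_abs,
      abs_of_pos hp, Complex.norm_I, mul_one]
    gcongr
  · simp only [norm_zero]; positivity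

/-- The derivative along the flow, cut at `c`. -/
def Dop {d : ℕ} (u : Fin d → ℝ) (c : ℝ) (hc : 0 ≤ c) : L2T d →L[ℂ] L2T d :=
  ((FT d).symm : ell2 (Fin d → ℤ) →L[ℂ] L2T d).comp
    ((mulC (dw u c) (2 * Real.pi * c) (by have := Real.pi_pos; positivity) (dw_le u c hc)).comp
      (FT d : L2T d →L[ℂ] ell2 (Fin d → ℤ)))

theorem FT_Dop {d : ℕ} (u : Fin d → ℝ) (c : ℝ) (hc : 0 ≤ c) (f : L2T d) (m : Fin d → ℤ) :
    FT d (Dop u c hc f) m = dw u c m * FT d f m := by
  unfold Dop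
  simp only [ContinuousLinearMap.comp_apply]
  change FT d ((FT d).symm _) m = _
  rw [LinearIsometryEquiv.apply_symm_apply]
  rfl

theorem BL_Dop {d : ℕ} (u : Fin d → ℝ) (c : ℝ) (hc : 0 ≤ c) (f : L2T d) (hf : BL u c f) :
    BL u c (Dop u c hc f) := by
  intro m hm
  rw [FT_Dop, hf m hm, mul_zero]

theorem nz_taylor (y s : ℝ) (c : ℝ) (hy : |y| ≤ c) (hs : s ≠ 0) (hsc : 2 * Real.pi * c * |s| ≤ 1) :
    ‖(s : ℂ)⁻¹ * (ec (s * y) - 1) - 2 * Real.pi * Complex.I * (y : ℂ)‖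
      ≤ (2 * Real.pi * c) ^ 2 * |s| := by
  have hp := Real.pi_pos
  have hc : 0 ≤ c := le_trans (abs_nonneg _) hy
  set z : ℂ := 2 * Real.pi * Complex.I * ((s * y : ℝ) : ℂ) with hz
  have hzn : ‖z‖ = 2 * Real.pi * (|s| * |y|) := by
    rw [hz]
    simp only [norm_mul, Complex.norm_ofNat, Complex.norm_real, Real.norm_eq_abs,
      abs_of_pos hp, Complex.norm_I, mul_one, Complex.ofReal_mul]
  have hzle : ‖z‖ ≤ 2 * Real.pi * c * |s| := by
    rw [hzn]
    calc 2 * Real.pi * (|s| * |y|) ≤ 2 * Real.pi * (|s| * c) := by gcongr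
      _ = _ := by ring
  have h1 := Complex.norm_exp_sub_one_sub_id_le (x := z) (le_trans hzle hsc)
  have h2 : (s : ℂ)⁻¹ * (ec (s * y) - 1) - 2 * Real.pi * Complex.I * (y : ℂ)
      = (s : ℂ)⁻¹ * (Complex.exp z - 1 - z) := by
    have hs' : (s : ℂ) ≠ 0 := by exact_mod_cast hs
    unfold ec
    rw [hz]
    push_cast
    field_simp
  rw [h2, norm_mul, norm_inv, Complex.norm_real, Real.norm_eq_abs]
  have hsp : 0 < |s| := abs_pos.mpr hs
  rw [inv_mul_le_iff₀ hsp]
  calc ‖Complex.exp z - 1 - z‖ ≤ ‖z‖ ^ 2 := h1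
    _ ≤ (2 * Real.pi * c * |s|) ^ 2 := by gcongr
    _ = _ := by ring

/-- Difference quotients converge to the derivative. -/
theorem nz_quot {d : ℕ} (u : Fin d → ℝ) (c : ℝ) (hc : 0 ≤ c) (f : L2T d) (hf : BL u c f)
    (s : ℝ) (hs : s ≠ 0) (hsc : 2 * Real.pi * c * |s| ≤ 1) :
    ‖(s : ℂ)⁻¹ • (tr u s f - f) - Dop u c hc f‖ ≤ (2 * Real.pi * c) ^ 2 * |s| * ‖f‖ := by
  have hp := Real.pi_pos
  rw [← (FT d).norm_map f, ← (FT d).norm_map (_ - _)]
  have hK : 0 ≤ (2 * Real.pi * c) ^ 2 * |s| := by positivity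
  set K : ℝ := (2 * Real.pi * c) ^ 2 * |s| with hKdef
  have h0 : ‖((K : ℂ) • FT d f : ell2 (Fin d → ℤ))‖ = K * ‖FT d f‖ := by
    rw [norm_smul, Complex.norm_real, Real.norm_eq_abs, abs_of_nonneg hK]
  rw [← h0]
  apply lp.norm_mono (by norm_num)
  intro m
  have h1 : FT d ((s : ℂ)⁻¹ • (tr u s f - f) - Dop u c hc f) m
      = ((s : ℂ)⁻¹ * (ec (s * dotu u m) - 1) - dw u c m) * FT d f m := by
    rw [map_sub, map_smul, map_sub]
    simp only [lp.coeFn_sub, lp.coeFn_smul, Pi.sub_apply, Pi.smul_apply, smul_eq_mul]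
    rw [FT_tr, FT_Dop]
    ring
  rw [h1]
  simp only [lp.coeFn_smul, Pi.smul_apply, smul_eq_mul, norm_mul, Complex.norm_real,
    Real.norm_eq_abs, abs_of_nonneg hK]
  by_cases hm : |dotu u m| ≤ c
  · have h2 : dw u c m = 2 * Real.pi * Complex.I * (dotu u m : ℂ) := by
      unfold dw; rw [if_pos hm]
    rw [h2]
    exact mul_le_mul_of_nonneg_right (nz_taylor (dotu u m) s c hm hs hsc) (norm_nonneg _)
  · rw [hf m (not_le.mp hm)]
    simp

theorem ec_norm (y : ℝ) : ‖ec y‖ = 1 := by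
  unfold ec
  rw [show (2 * Real.pi * Complex.I * (y : ℂ)) = ((2 * Real.pi * y : ℝ) : ℂ) * Complex.I by
    push_cast; ring]
  exact Complex.norm_exp_ofReal_mul_I _

/-- Continuity of translations at zero. -/
theorem tr_tendsto {d : ℕ} (u : Fin d → ℝ) (f : L2T d) :
    Filter.Tendsto (fun s : ℝ => ‖tr u s f - f‖) (nhds 0) (nhds 0) := by
  have h1 : ∀ s : ℝ, ‖tr u s f - f‖ ^ 2 = ∑' m, ‖(ec (s * dotu u m) - 1) * FT d f m‖ ^ 2 := by
    intro s
    rw [← (FT d).norm_map (_ - _)]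
    have := lp.norm_rpow_eq_tsum (p := 2) (by norm_num) (FT d (tr u s f - f))
    simp only [ENNReal.toReal_ofNat, Real.rpow_ofNat] at this
    rw [this]
    congr 1
    ext m
    rw [map_sub]
    simp only [lp.coeFn_sub, Pi.sub_apply]
    rw [FT_tr, sub_mul, one_mul]
  have h2 : Filter.Tendsto (fun s : ℝ => ∑' m, ‖(ec (s * dotu u m) - 1) * FT d f m‖ ^ 2)
      (nhds 0) (nhds (∑' m, ‖(ec (0 * dotu u m) - 1) * FT d f m‖ ^ 2)) := by
    refine tendsto_tsum_of_dominated_convergence (bound := fun m => 4 * ‖FT d f m‖ ^ 2) ?_ ?_ ?_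
    · have := lp.memℓp (FT d f)
      rw [memℓp_gen_iff (by norm_num)] at this
      simp only [ENNReal.toReal_ofNat, Real.rpow_ofNat] at this
      exact this.mul_left 4
    · intro m
      apply Continuous.tendsto
        (f := fun s : ℝ => ‖(ec (s * dotu u m) - 1) * FT d f m‖ ^ 2) _ 0
      unfold ec
      fun_prop
    · refine Filter.Eventually.of_forall (fun s m => ?_)
      rw [Real.norm_eq_abs, abs_of_nonneg (by positivity), norm_mul, mul_pow]
      have : ‖ec (s * dotu u m) - 1‖ ≤ 2 := by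
        calc _ ≤ ‖ec (s * dotu u m)‖ + ‖(1 : ℂ)‖ := norm_sub_le _ _
          _ = 2 := by rw [ec_norm, norm_one]; norm_num
      gcongr
      nlinarith [norm_nonneg (ec (s * dotu u m) - 1)]
  have h3 : (∑' m, ‖(ec (0 * dotu u m) - 1) * FT d f m‖ ^ 2) = 0 := by
    have : ∀ m, ‖(ec (0 * dotu u m) - 1) * FT d f m‖ ^ 2 = 0 := by
      intro m; simp [ec]
    simp only [this, tsum_zero]
  rw [h3] at h2
  have h4 : Filter.Tendsto (fun s : ℝ => ‖tr u s f - f‖ ^ 2) (nhds 0) (nhds 0) := by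
    simp only [h1]; exact h2
  have h5 := h4.sqrt
  simp only [Real.sqrt_zero] at h5
  refine h5.congr (fun s => ?_)
  exact Real.sqrt_sq (norm_nonneg _)

/-- `f` vanishes almost everywhere on `Z`. -/
def VZ {d : ℕ} (Z : Set (UnitAddTorus (Fin d))) (f : L2T d) : Prop :=
  ∀ᵐ x ∂(haarT d), x ∈ Z → (f : UnitAddTorus (Fin d) → ℂ) x = 0

theorem nz_sub {d : ℕ} (F : ℕ → L2T d) (g : L2T d)
    (h : Filter.Tendsto (fun n => ‖F n - g‖) Filter.atTop (nhds 0)) :
    ∃ ns : ℕ → ℕ, StrictMono ns ∧ ∀ᵐ x ∂(haarT d),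
      Filter.Tendsto (fun i => (F (ns i) : UnitAddTorus (Fin d) → ℂ) x) Filter.atTop
        (nhds ((g : UnitAddTorus (Fin d) → ℂ) x)) := by
  have h1 : Filter.Tendsto F Filter.atTop (nhds g) :=
    tendsto_iff_norm_sub_tendsto_zero.mpr h
  exact (tendstoInMeasure_of_tendsto_Lp h1).exists_seq_tendsto_ae

theorem nz_key {d : ℕ} (u : Fin d → ℝ) (c : ℝ) (hc : 0 ≤ c) (f : L2T d) (hf : BL u c f)
    (Z : Set (UnitAddTorus (Fin d))) (hZ : MeasurableSet Z) (h : VZ Z f) :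
    VZ Z (Dop u c hc f) := by
  classical
  have hp := Real.pi_pos
  set oneZ : L2T d := indicatorConstLp 2 hZ (measure_ne_top _ _) (1 : ℂ) with hone
  have hsn : Filter.Tendsto (fun n : ℕ => (1 / ((n : ℝ) + 1) : ℝ)) Filter.atTop (nhds 0) :=
    tendsto_one_div_add_atTop_nhds_zero_nat
  have hspos : ∀ n : ℕ, (0 : ℝ) < 1 / ((n : ℝ) + 1) := fun n => by positivity
  set s : ℕ → ℝ := fun n => 1 / ((n : ℝ) + 1) with hs
  obtain ⟨n1, hn1, hA⟩ := nz_sub (fun n => tr u (s n) oneZ) oneZ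
    ((tr_tendsto u oneZ).comp hsn)
  have hq : Filter.Tendsto (fun n => ‖((s (n1 n) : ℝ) : ℂ)⁻¹ • (tr u (s (n1 n)) f - f)
      - Dop u c hc f‖) Filter.atTop (nhds 0) := by
    have hs1 : Filter.Tendsto (fun n => s (n1 n)) Filter.atTop (nhds 0) :=
      hsn.comp hn1.tendsto_atTop
    have hb : Filter.Tendsto (fun n => (2 * Real.pi * c) ^ 2 * |s (n1 n)| * ‖f‖)
        Filter.atTop (nhds 0) := by
      have := ((hs1.abs).const_mul ((2 * Real.pi * c) ^ 2)).mul_const ‖f‖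
      simpa using this
    refine squeeze_zero' (Filter.Eventually.of_forall (fun n => norm_nonneg _)) ?_ hb
    have hev : ∀ᶠ n in Filter.atTop, 2 * Real.pi * c * |s (n1 n)| ≤ 1 := by
      have h3 : Filter.Tendsto (fun n => 2 * Real.pi * c * |s (n1 n)|) Filter.atTop
          (nhds 0) := by
        have := (hs1.abs).const_mul (2 * Real.pi * c)
        simpa using this
      have := h3.eventually (gt_mem_nhds (show (0 : ℝ) < 1 by norm_num))
      filter_upwards [this] with n hn using le_of_lt hn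
    filter_upwards [hev] with n hn
    exact nz_quot u c hc f hf (s (n1 n)) (ne_of_gt (hspos _)) hn
  obtain ⟨n2, hn2, hB⟩ := nz_sub
    (fun n => ((s (n1 n) : ℝ) : ℂ)⁻¹ • (tr u (s (n1 n)) f - f)) (Dop u c hc f) hq
  have hC : ∀ᵐ x ∂(haarT d), ∀ n : ℕ, x + flow u (s n) ∈ Z →
      (f : UnitAddTorus (Fin d) → ℂ) (x + flow u (s n)) = 0 := by
    rw [ae_all_iff]
    intro n
    exact (mp_flow u (s n)).quasiMeasurePreserving.ae h
  have hD : ∀ᵐ x ∂(haarT d), ∀ n : ℕ, (tr u (s n) f : UnitAddTorus (Fin d) → ℂ) x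
      = (f : UnitAddTorus (Fin d) → ℂ) (x + flow u (s n)) := by
    rw [ae_all_iff]; intro n; exact tr_coe u (s n) f
  have hE : ∀ᵐ x ∂(haarT d), ∀ n : ℕ, (tr u (s n) oneZ : UnitAddTorus (Fin d) → ℂ) x
      = Z.indicator (fun _ => (1 : ℂ)) (x + flow u (s n)) := by
    rw [ae_all_iff]; intro n
    have h1 := tr_coe u (s n) oneZ
    have h2 : ∀ᵐ x ∂(haarT d), (oneZ : UnitAddTorus (Fin d) → ℂ) (x + flow u (s n))
        = Z.indicator (fun _ => (1 : ℂ)) (x + flow u (s n)) :=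
      (mp_flow u (s n)).quasiMeasurePreserving.ae
        (indicatorConstLp_coeFn (p := 2) (hs := hZ) (hμs := measure_ne_top _ _) (c := (1 : ℂ)))
    filter_upwards [h1, h2] with x h1 h2
    rw [h1, h2]
  have hF : ∀ᵐ x ∂(haarT d), ∀ n : ℕ,
      ((((s (n1 n) : ℝ) : ℂ)⁻¹ • (tr u (s (n1 n)) f - f) : L2T d) : UnitAddTorus (Fin d) → ℂ) x
      = ((s (n1 n) : ℝ) : ℂ)⁻¹ * ((tr u (s (n1 n)) f : UnitAddTorus (Fin d) → ℂ) x
        - (f : UnitAddTorus (Fin d) → ℂ) x) := by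
    rw [ae_all_iff]; intro n
    filter_upwards [Lp.coeFn_smul (((s (n1 n) : ℝ) : ℂ)⁻¹) (tr u (s (n1 n)) f - f),
      Lp.coeFn_sub (tr u (s (n1 n)) f) f] with x h1 h2
    rw [h1, Pi.smul_apply, h2, Pi.sub_apply, smul_eq_mul]
  have hG : ∀ᵐ x ∂(haarT d), (oneZ : UnitAddTorus (Fin d) → ℂ) x
      = Z.indicator (fun _ => (1 : ℂ)) x :=
    indicatorConstLp_coeFn (p := 2) (hs := hZ) (hμs := measure_ne_top _ _) (c := (1 : ℂ))
  filter_upwards [h, hA, hB, hC, hD, hE, hF, hG] with x h0 hA hB hC hD hE hF hG hxZ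
  have h1 : ∀ᶠ n in Filter.atTop, x + flow u (s (n1 n)) ∈ Z := by
    rw [hG, Set.indicator_of_mem hxZ] at hA
    have h2 : ∀ᶠ n in Filter.atTop, dist ((tr u (s (n1 n)) oneZ : UnitAddTorus (Fin d) → ℂ) x)
        (1 : ℂ) < 1 := hA.eventually (Metric.ball_mem_nhds _ one_pos)
    filter_upwards [h2] with n hn
    by_contra hcon
    rw [hE, Set.indicator_of_notMem hcon] at hn
    simp at hn
  have h2 : ∀ᶠ n in Filter.atTop,
      ((((s (n1 (n2 n)) : ℝ) : ℂ)⁻¹ • (tr u (s (n1 (n2 n))) f - f) : L2T d) :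
        UnitAddTorus (Fin d) → ℂ) x = 0 := by
    filter_upwards [hn2.tendsto_atTop.eventually h1] with n hn
    rw [hF, hD, hC _ hn, h0 hxZ]
    simp
  exact tendsto_nhds_unique hB (tendsto_const_nhds.congr' (by
    filter_upwards [h2] with n hn using hn.symm))

theorem VZ_lim {d : ℕ} (Z : Set (UnitAddTorus (Fin d))) (F : ℕ → L2T d) (g : L2T d)
    (h : Filter.Tendsto F Filter.atTop (nhds g)) (hF : ∀ n, VZ Z (F n)) : VZ Z g := by
  obtain ⟨ns, -, hA⟩ := nz_sub F g (tendsto_iff_norm_sub_tendsto_zero.mp h)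
  have hB : ∀ᵐ x ∂(haarT d), ∀ n : ℕ, x ∈ Z → (F n : UnitAddTorus (Fin d) → ℂ) x = 0 := by
    rw [ae_all_iff]; exact hF
  filter_upwards [hA, hB] with x hA hB hx
  refine tendsto_nhds_unique hA ?_
  have : (fun i => (F (ns i) : UnitAddTorus (Fin d) → ℂ) x) = fun _ => 0 := by
    ext i; exact hB _ hx
  rw [this]
  exact tendsto_const_nhds

theorem VZ_add {d : ℕ} (Z : Set (UnitAddTorus (Fin d))) (f g : L2T d)
    (hf : VZ Z f) (hg : VZ Z g) : VZ Z (f + g) := by
  filter_upwards [hf, hg, Lp.coeFn_add f g] with x h1 h2 h3 hx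
  rw [h3, Pi.add_apply, h1 hx, h2 hx, add_zero]

theorem VZ_smul {d : ℕ} (Z : Set (UnitAddTorus (Fin d))) (a : ℂ) (f : L2T d)
    (hf : VZ Z f) : VZ Z (a • f) := by
  filter_upwards [hf, Lp.coeFn_smul a f] with x h1 h3 hx
  rw [h3, Pi.smul_apply, h1 hx, smul_zero]

theorem VZ_zero {d : ℕ} (Z : Set (UnitAddTorus (Fin d))) : VZ Z (0 : L2T d) := by
  filter_upwards [Lp.coeFn_zero ℂ 2 (haarT d)] with x h3 hx
  rw [h3]; rfl

theorem nz_pow {d : ℕ} (u : Fin d → ℝ) (c : ℝ) (hc : 0 ≤ c) (f : L2T d) (hf : BL u c f)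
    (Z : Set (UnitAddTorus (Fin d))) (hZ : MeasurableSet Z) (h : VZ Z f) (n : ℕ) :
    VZ Z ((Dop u c hc ^ n) f) ∧ BL u c ((Dop u c hc ^ n) f) := by
  induction n with
  | zero => exact ⟨by simpa using h, by simpa using hf⟩
  | succ n ih =>
    rw [pow_succ']
    exact ⟨nz_key u c hc _ ih.2 Z hZ ih.1, BL_Dop u c hc _ ih.2⟩

theorem FT_pow {d : ℕ} (u : Fin d → ℝ) (c : ℝ) (hc : 0 ≤ c) (f : L2T d) (m : Fin d → ℤ) (n : ℕ) :
    FT d ((Dop u c hc ^ n) f) m = dw u c m ^ n * FT d f m := by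
  induction n with
  | zero => simp
  | succ n ih =>
    rw [pow_succ']
    change FT d (Dop u c hc ((Dop u c hc ^ n) f)) m = _
    rw [FT_Dop, ih]
    ring

theorem nz_tr {d : ℕ} (u : Fin d → ℝ) (c : ℝ) (hc : 0 ≤ c) (f : L2T d) (hf : BL u c f)
    (Z : Set (UnitAddTorus (Fin d))) (hZ : MeasurableSet Z) (h : VZ Z f) (s : ℝ) :
    VZ Z (tr u s f) := by
  set D := Dop u c hc with hD
  have h1 : HasSum (fun n : ℕ => ((n.factorial : ℂ)⁻¹) • ((s : ℂ) • D) ^ n)
      (NormedSpace.exp ((s : ℂ) • D)) := NormedSpace.exp_series_hasSum_exp' (𝕂 := ℂ) ((s : ℂ) • D)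
  have h2 : HasSum (fun n : ℕ => ((n.factorial : ℂ)⁻¹) • ((s : ℂ) ^ n • (D ^ n) f))
      (NormedSpace.exp ((s : ℂ) • D) f) := by
    have h3 := (ContinuousLinearMap.apply ℂ (L2T d) f).hasSum h1
    have h4 : ∀ n : ℕ, (ContinuousLinearMap.apply ℂ (L2T d) f)
        (((n.factorial : ℂ)⁻¹) • ((s : ℂ) • D) ^ n)
        = ((n.factorial : ℂ)⁻¹) • ((s : ℂ) ^ n • (D ^ n) f) := by
      intro n
      rw [smul_pow]
      rfl
    have h5 : (ContinuousLinearMap.apply ℂ (L2T d) f) (NormedSpace.exp ((s : ℂ) • D))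
        = NormedSpace.exp ((s : ℂ) • D) f := rfl
    rw [← h5]
    simpa only [Function.comp_def, h4] using h3
  have h6 : NormedSpace.exp ((s : ℂ) • D) f = tr u s f := by
    apply (FT d).injective
    ext m
    have h7 := (lp.evalCLM ℂ (fun _ : Fin d → ℤ => ℂ) 2 m).hasSum
      ((FT d : L2T d →L[ℂ] ell2 (Fin d → ℤ)).hasSum h2)
    have h8 : ∀ n : ℕ, (lp.evalCLM ℂ (fun _ : Fin d → ℤ => ℂ) 2 m)
        ((FT d : L2T d →L[ℂ] ell2 (Fin d → ℤ))
          (((n.factorial : ℂ)⁻¹) • ((s : ℂ) ^ n • (D ^ n) f)))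
        = ((n.factorial : ℂ)⁻¹ • ((s : ℂ) * dw u c m) ^ n) * FT d f m := by
      intro n
      change FT d (((n.factorial : ℂ)⁻¹) • ((s : ℂ) ^ n • (D ^ n) f)) m = _
      rw [map_smul, map_smul]
      simp only [lp.coeFn_smul, Pi.smul_apply, smul_eq_mul]
      rw [hD, FT_pow]
      ring
    have h9 : HasSum (fun n : ℕ => ((n.factorial : ℂ)⁻¹ • ((s : ℂ) * dw u c m) ^ n) * FT d f m)
        (NormedSpace.exp ((s : ℂ) * dw u c m) * FT d f m) :=
      (NormedSpace.exp_series_hasSum_exp' (𝕂 := ℂ) ((s : ℂ) * dw u c m)).mul_right _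
    have h10 : FT d (NormedSpace.exp ((s : ℂ) • D) f) m
        = NormedSpace.exp ((s : ℂ) * dw u c m) * FT d f m := by
      refine HasSum.unique ?_ h9
      have h11 : HasSum (fun n : ℕ => ((n.factorial : ℂ)⁻¹ • ((s : ℂ) * dw u c m) ^ n) * FT d f m)
          ((lp.evalCLM ℂ (fun _ : Fin d → ℤ => ℂ) 2 m)
            ((FT d : L2T d →L[ℂ] ell2 (Fin d → ℤ)) (NormedSpace.exp ((s : ℂ) • D) f))) := by
        simpa only [Function.comp_def, h8] using h7
      exact h11
    rw [h10, FT_tr]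
    by_cases hm : |dotu u m| ≤ c
    · congr 1
      rw [← Complex.exp_eq_exp_ℂ]
      unfold ec dw
      rw [if_pos hm]
      congr 1
      push_cast
      ring
    · rw [hf m (not_le.mp hm)]; simp
  rw [← h6]
  refine VZ_lim Z _ _ h2.tendsto_sum_nat (fun N => ?_)
  induction N with
  | zero => simpa using VZ_zero Z
  | succ N ih =>
    rw [Finset.sum_range_succ]
    exact VZ_add Z _ _ ih (VZ_smul Z _ _ (VZ_smul Z _ _ (nz_pow u c hc f hf Z hZ h N).1))

/-- A non-zero square integrable function on the torus whose frequencies lie in a strip is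
non-zero almost everywhere. -/
theorem nz_ae {d : ℕ} (u : Fin d → ℝ) (hu : ∀ m : Fin d → ℤ, dotu u m = 0 → m = 0)
    (c : ℝ) (f : L2T d) (hf : ∀ m : Fin d → ℤ, c < |dotu u m| → mFourierCoeff f m = 0)
    (hne : f ≠ 0) : ∀ᵐ x ∂(haarT d), (f : UnitAddTorus (Fin d) → ℂ) x ≠ 0 := by
  classical
  set c' := max c 0 with hc'
  have hc0 : 0 ≤ c' := le_max_right _ _
  have hBL : BL u c' f := by
    intro m hm
    rw [FT_apply]
    exact hf m (lt_of_le_of_lt (le_max_left _ _) hm)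
  set Z : Set (UnitAddTorus (Fin d)) := {x | (f : UnitAddTorus (Fin d) → ℂ) x = 0} with hZdef
  have hZ : MeasurableSet Z :=
    (Lp.stronglyMeasurable f).measurable (measurableSet_singleton 0)
  have hVZ : VZ Z f := Filter.Eventually.of_forall (fun x hx => hx)
  have h1 : ∀ s : ℝ, ∀ᵐ x ∂(haarT d), x ∈ Z → x + flow u s ∈ Z := by
    intro s
    filter_upwards [nz_tr u c' hc0 f hBL Z hZ hVZ s, tr_coe u s f] with x h1 h2 hx
    have := h1 hx
    rw [h2] at this
    exact this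
  have h2 : ∀ s : ℝ, ∀ᵐ x ∂(haarT d), x + flow u s ∈ Z → x ∈ Z := by
    intro s
    have h3 := (mp_flow u s).quasiMeasurePreserving.ae (h1 (-s))
    filter_upwards [h3] with x h3 hx
    have h4 := h3 hx
    have h5 : x + flow u s + flow u (-s) = x := by
      ext i
      simp only [Pi.add_apply, flow]
      rw [add_assoc, ← AddCircle.coe_add]
      simp
    rwa [h5] at h4
  set oneZ : L2T d := indicatorConstLp 2 hZ (measure_ne_top _ _) (1 : ℂ) with hone
  have hG : ∀ᵐ x ∂(haarT d), (oneZ : UnitAddTorus (Fin d) → ℂ) x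
      = Z.indicator (fun _ => (1 : ℂ)) x :=
    indicatorConstLp_coeFn (p := 2) (hs := hZ) (hμs := measure_ne_top _ _) (c := (1 : ℂ))
  have h3 : ∀ s : ℝ, tr u s oneZ = oneZ := by
    intro s
    apply Lp.ext
    have hG' := (mp_flow u s).quasiMeasurePreserving.ae hG
    filter_upwards [h1 s, h2 s, hG, hG', tr_coe u s oneZ] with x a1 a2 a3 a4 a5
    rw [a5, a3, a4]
    by_cases hx : x ∈ Z
    · rw [Set.indicator_of_mem hx, Set.indicator_of_mem (a1 hx)]
    · rw [Set.indicator_of_notMem hx, Set.indicator_of_notMem (fun h => hx (a2 h))]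
  have h4 : ∀ m : Fin d → ℤ, m ≠ 0 → mFourierCoeff oneZ m = 0 := by
    intro m hm
    have hm' : dotu u m ≠ 0 := fun h => hm (hu m h)
    have h5 := FT_tr u (1 / (2 * dotu u m)) oneZ m
    rw [h3] at h5
    have h6 : ec (1 / (2 * dotu u m) * dotu u m) = -1 := by
      have : 1 / (2 * dotu u m) * dotu u m = 1 / 2 := by field_simp
      rw [this]
      unfold ec
      rw [show (2 * Real.pi * Complex.I * ((1 / 2 : ℝ) : ℂ)) = Real.pi * Complex.I by
        push_cast; ring]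
      exact Complex.exp_pi_mul_I
    rw [h6, FT_apply] at h5
    have : (2 : ℂ) * mFourierCoeff oneZ m = 0 := by linear_combination h5
    simpa using this
  have h5 : oneZ = mFourierCoeff oneZ 0 • mFourierLp 2 0 := by
    refine (hasSum_mFourier_series_L2 oneZ).unique ?_
    exact hasSum_single 0 (fun m hm => by rw [h4 m hm, zero_smul])
  have h6 : ∀ᵐ x ∂(haarT d), (oneZ : UnitAddTorus (Fin d) → ℂ) x = mFourierCoeff oneZ 0 := by
    have a1 := Lp.coeFn_smul (mFourierCoeff oneZ 0) (mFourierLp (d := Fin d) 2 0)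
    have a2 := coeFn_mFourierLp (d := Fin d) 2 0
    rw [← h5] at a1
    filter_upwards [a1, a2] with x a1 a2
    rw [a1, Pi.smul_apply, a2, mFourier_zero]
    simp
  by_contra hcon
  have h7 : ∃ᵐ x ∂(haarT d), x ∈ Z := by
    intro h
    apply hcon
    filter_upwards [h] with x hx using hx
  have h8 := (h7.and_eventually (hG.and h6)).exists
  obtain ⟨x, hx, hx1, hx2⟩ := h8
  rw [Set.indicator_of_mem hx] at hx1
  have h9 : mFourierCoeff oneZ 0 = 1 := by rw [← hx2, hx1]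
  apply hne
  apply Lp.ext
  filter_upwards [hG, h6, Lp.coeFn_zero ℂ 2 (haarT d)] with y b1 b2 b3
  rw [b3]
  change (f : UnitAddTorus (Fin d) → ℂ) y = 0
  by_contra hy
  have hy' : y ∉ Z := hy
  rw [Set.indicator_of_notMem hy'] at b1
  rw [b1, h9] at b2
  simp at b2

end

end Pool.Agent.Helper51.FS
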