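import Pool.Agent.Helper51.FS.GR

set_option autoImplicit false

namespace Pool.Agent.Helper51.FS

open MeasureTheory UnitAddTorus
open scoped ComplexConjugate ENNReal

noncomputable section

/-- Step (1): from solutions with compactly supported real part on a set of positive measure of
static phases to square summable solutions for almost all static phases. -/
def ST_DIM : Prop :=
  ∀ (d r : ℕ) (E : Type) [Fintype E] (u : Fin d → ℝ) (R₀ : ℝ)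
    (γ : UnitAddTorus (Fin r) → (Fin d → ℤ) → E → ℂ),
    (∀ m : Fin d → ℤ, dotu u m = 0 → m = 0) → 0 ≤ R₀ →
    (∀ m e, IsTP (fun η => γ η m e)) →
    (∀ H : ℝ, ∃ c : ℕ, ∀ η m e, |dotu u m| ≤ H → γ η m e ≠ 0 → ∀ i, |m i| ≤ (c : ℤ)) →
    haarT r {η | ∃ (K : (Fin d → ℤ) × E → ℂ) (D : ℂ), D ≠ 0 ∧
      (∀ p, R₀ < |dotu u p.1| → K p = 0) ∧
      ∀ m₁ : Fin d → ℤ, ∑' p : (Fin d → ℤ) × E, γ η (m₁ - p.1) p.2 * K p
        = if m₁ = 0 then D else 0} ≠ 0 →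
    ∀ᵐ η ∂(haarT r), ∃ (t : ℝ) (K : ell2 ((Fin d → ℤ) × E)),
      (∀ p, R₀ + 1 < |dotu u p.1 + t| → K p = 0) ∧
      (∀ m₁ : Fin d → ℤ, 1 < |dotu u m₁ + t| →
        ∑' p : (Fin d → ℤ) × E, γ η (m₁ - p.1) p.2 * K p = 0) ∧
      ∃ m₁ : Fin d → ℤ, ∑' p : (Fin d → ℤ) × E, γ η (m₁ - p.1) p.2 * K p ≠ 0

end

end Pool.Agent.Helper51.FS
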